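import Pool.Agent.Helper21.LinSys.Regular

/-!
# Quadratic forms modulo l on the Boolean cube; functions of few linear forms on fibres
-/

set_option autoImplicit false

namespace Pool.Agent.Helper27.QS

open Finset Pool.Agent.Helper21.LinSys

section Quad

set_option linter.unusedSectionVars false

variable {ι : Type*} [Fintype ι] {l : ℕ}

/-- The value at `x` of the quadratic form with matrix `A` modulo `l`. -/
def qv (A : ι → ι → ZMod l) (x : ι → Bool) : ZMod l :=
  ∑ i, ∑ j, if x i = true ∧ x j = true then A i j else 0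

/-- Symmetric matrices. -/
def Sym {ι : Type*} (A : ι → ι → ZMod l) : Prop := ∀ i j, A i j = A j i

theorem Sym.add {A B : ι → ι → ZMod l} (hA : Sym A) (hB : Sym B) : Sym (A + B) := fun i j => by
  simp only [Pi.add_apply]
  rw [hA i j, hB i j]

theorem Sym.neg {A : ι → ι → ZMod l} (hA : Sym A) : Sym (-A) := fun i j => by
  simp only [Pi.neg_apply]
  rw [hA i j]

theorem Sym.sub {A B : ι → ι → ZMod l} (hA : Sym A) (hB : Sym B) : Sym (A - B) := fun i j => by
  simp only [Pi.sub_apply]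
  rw [hA i j, hB i j]

theorem Sym.smul {A : ι → ι → ZMod l} (c : ZMod l) (hA : Sym A) : Sym (c • A) := fun i j => by
  simp only [Pi.smul_apply]
  rw [hA i j]

theorem Sym.zero : Sym (0 : ι → ι → ZMod l) := fun _ _ => rfl

theorem Sym.sum {κ : Type*} (s : Finset κ) {A : κ → ι → ι → ZMod l}
    (h : ∀ k ∈ s, Sym (A k)) : Sym (∑ k ∈ s, A k) := fun i j => by
  simp only [Finset.sum_apply]
  exact Finset.sum_congr rfl fun k hk => h k hk i j

theorem qv_zero (x : ι → Bool) : qv (0 : ι → ι → ZMod l) x = 0 := by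
  unfold qv
  simp

theorem qv_add (A B : ι → ι → ZMod l) (x : ι → Bool) : qv (A + B) x = qv A x + qv B x := by
  unfold qv
  rw [← Finset.sum_add_distrib]
  refine Finset.sum_congr rfl fun i _ => ?_
  rw [← Finset.sum_add_distrib]
  refine Finset.sum_congr rfl fun j _ => ?_
  split <;> simp

theorem qv_smul (c : ZMod l) (A : ι → ι → ZMod l) (x : ι → Bool) :
    qv (c • A) x = c * qv A x := by
  unfold qv
  rw [Finset.mul_sum]
  refine Finset.sum_congr rfl fun i _ => ?_
  rw [Finset.mul_sum]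
  refine Finset.sum_congr rfl fun j _ => ?_
  split <;> simp

theorem qv_neg (A : ι → ι → ZMod l) (x : ι → Bool) : qv (-A) x = -qv A x := by
  have := qv_smul (-1 : ZMod l) A x
  simpa using this

theorem qv_sub (A B : ι → ι → ZMod l) (x : ι → Bool) : qv (A - B) x = qv A x - qv B x := by
  rw [sub_eq_add_neg, qv_add, qv_neg, ← sub_eq_add_neg]

theorem qv_sum {κ : Type*} (s : Finset κ) (A : κ → ι → ι → ZMod l) (x : ι → Bool) :
    qv (∑ k ∈ s, A k) x = ∑ k ∈ s, qv (A k) x := by
  classical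
  induction s using Finset.induction_on with
  | empty => simp [qv_zero]
  | insert k s hk ih => rw [Finset.sum_insert hk, Finset.sum_insert hk, qv_add, ih]

/-- The linear form `L` as a quadratic form. -/
def diagForm [DecidableEq ι] (L : ι → ZMod l) : ι → ι → ZMod l := fun i j =>
  if i = j then L i else 0

theorem diagForm_sym [DecidableEq ι] (L : ι → ZMod l) : Sym (diagForm L) := fun i j => by
  unfold diagForm
  by_cases h : i = j
  · subst h; rfl
  · rw [if_neg h, if_neg (Ne.symm h)]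

theorem qv_diagForm [DecidableEq ι] (L : ι → ZMod l) (x : ι → Bool) :
    qv (diagForm L) x = ev L x := by
  unfold qv ev diagForm
  refine Finset.sum_congr rfl fun i _ => ?_
  rw [Finset.sum_eq_single i]
  · simp
  · intro j _ hj
    simp [Ne.symm hj]
  · simp

end Quad

section Card

variable {G : Type*} [AddCommGroup G] [Finite G]

omit [Finite G] in
theorem card_mul_relIndex {A B : AddSubgroup G} (h : A ≤ B) :
    Nat.card A * A.relIndex B = Nat.card B := by
  have h1 := AddSubgroup.relIndex_mul_relIndex ⊥ A B bot_le h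
  rwa [AddSubgroup.relIndex_bot_left, AddSubgroup.relIndex_bot_left] at h1

omit [Finite G] in
theorem card_sup_mul_card_inf (A B : AddSubgroup G) :
    Nat.card (A ⊔ B : AddSubgroup G) * Nat.card (A ⊓ B : AddSubgroup G) =
      Nat.card A * Nat.card B := by
  have h1 : A.relIndex (B ⊔ A) = A.relIndex B := AddSubgroup.relIndex_sup_right B A
  have h2 : Nat.card A * A.relIndex (B ⊔ A) = Nat.card (B ⊔ A : AddSubgroup G) :=
    card_mul_relIndex le_sup_right
  have h3 : Nat.card (A ⊓ B : AddSubgroup G) * (A ⊓ B).relIndex B = Nat.card B :=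
    card_mul_relIndex inf_le_right
  rw [AddSubgroup.inf_relIndex_right] at h3
  rw [sup_comm A B, ← h2, h1, ← h3]
  ring

theorem card_sup_le {A B C : AddSubgroup G} (hA : C ≤ A) (hB : C ≤ B) {r : ℕ}
    (h : Nat.card B ≤ r * Nat.card C) :
    Nat.card (A ⊔ B : AddSubgroup G) ≤ r * Nat.card A := by
  have h1 := card_sup_mul_card_inf A B
  have h2 : Nat.card C ≤ Nat.card (A ⊓ B : AddSubgroup G) :=
    Nat.card_le_card_of_injective (AddSubgroup.inclusion (le_inf hA hB))
      (AddSubgroup.inclusion_injective _)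
  have h3 : 0 < Nat.card C := Nat.card_pos
  refine Nat.le_of_mul_le_mul_right ?_ h3
  calc Nat.card (A ⊔ B : AddSubgroup G) * Nat.card C ≤
      Nat.card (A ⊔ B : AddSubgroup G) * Nat.card (A ⊓ B : AddSubgroup G) :=
        Nat.mul_le_mul_left _ h2
    _ = Nat.card A * Nat.card B := h1
    _ ≤ Nat.card A * (r * Nat.card C) := Nat.mul_le_mul_left _ h
    _ = r * Nat.card A * Nat.card C := by ring

end Card

section Str

variable {ι : Type*} [Fintype ι] [DecidableEq ι] {l : ℕ}

/-- On every fibre of `Γ` on every face `x_T = const`, the function `φ` depends only on the values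
of the forms of a group at most `r` times larger than `Γ`. -/
def Str (φ : (ι → Bool) → ZMod l) (Γ : AddSubgroup (ι → ZMod l)) (T : Finset ι) (r : ℕ) : Prop :=
  ∀ y : ι → Bool, ∃ Γ' : AddSubgroup (ι → ZMod l), Γ ≤ Γ' ∧ Nat.card Γ' ≤ r * Nat.card Γ ∧
    ∀ x ∈ fibz Γ T y y, ∀ x' ∈ fibz Γ T y y, (∀ L ∈ Γ', ev L x = ev L x') → φ x = φ x'

variable {φ ψ : (ι → Bool) → ZMod l} {Γ Γ₁ : AddSubgroup (ι → ZMod l)} {T T₁ : Finset ι}
  {r s : ℕ}

theorem fibz_mono {z : ι → Bool} (hΓ : Γ ≤ Γ₁) (hT : T ⊆ T₁) :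
    fibz Γ₁ T₁ z z ⊆ fibz Γ T z z := by
  intro x hx
  rw [mem_fibz] at hx ⊢
  exact ⟨fun i hi => hx.1 i (hT hi), fun L hL => hx.2 L (hΓ hL)⟩

theorem Str.mono_r (h : Str φ Γ T r) (hrs : r ≤ s) : Str φ Γ T s := by
  intro y
  obtain ⟨Γ', h1, h2, h3⟩ := h y
  exact ⟨Γ', h1, h2.trans (Nat.mul_le_mul_right _ hrs), h3⟩

theorem Str.mono [NeZero l] (h : Str φ Γ T r) (hΓ : Γ ≤ Γ₁) (hT : T ⊆ T₁) :
    Str φ Γ₁ T₁ r := by
  intro y
  obtain ⟨Γ', h1, h2, h3⟩ := h y
  refine ⟨Γ₁ ⊔ Γ', le_sup_left, card_sup_le hΓ h1 h2, ?_⟩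
  intro x hx x' hx' hxx
  exact h3 x (fibz_mono hΓ hT hx) x' (fibz_mono hΓ hT hx') fun L hL =>
    hxx L (le_sup_right (a := Γ₁) hL)

theorem Str.add [NeZero l] (h : Str φ Γ T r) (h' : Str ψ Γ T s) :
    Str (fun x => φ x + ψ x) Γ T (r * s) := by
  intro y
  obtain ⟨Γ', h1, h2, h3⟩ := h y
  obtain ⟨Γ'', g1, g2, g3⟩ := h' y
  refine ⟨Γ' ⊔ Γ'', h1.trans le_sup_left, ?_, ?_⟩
  · calc Nat.card (Γ' ⊔ Γ'' : AddSubgroup (ι → ZMod l)) ≤ s * Nat.card Γ' :=
        card_sup_le h1 g1 g2
      _ ≤ s * (r * Nat.card Γ) := Nat.mul_le_mul_left _ h2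
      _ = _ := by ring
  · intro x hx x' hx' hxx
    dsimp only
    rw [h3 x hx x' hx' fun L hL => hxx L (le_sup_left (b := Γ'') hL),
      g3 x hx x' hx' fun L hL => hxx L (le_sup_right (a := Γ') hL)]

theorem Str.comp (h : Str φ Γ T r) (f : ZMod l → ZMod l) :
    Str (fun x => f (φ x)) Γ T r := by
  intro y
  obtain ⟨Γ', h1, h2, h3⟩ := h y
  refine ⟨Γ', h1, h2, fun x hx x' hx' hxx => ?_⟩
  dsimp only
  rw [h3 x hx x' hx' hxx]

theorem Str.smul {A : ι → ι → ZMod l} (h : Str (qv A) Γ T r) (c : ZMod l) :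
    Str (qv (c • A)) Γ T r := by
  have h1 := h.comp fun v => c * v
  have h2 : qv (c • A) = fun x => c * qv A x := funext fun x => qv_smul c A x
  rw [h2]
  exact h1

theorem Str.neg {A : ι → ι → ZMod l} (h : Str (qv A) Γ T r) : Str (qv (-A)) Γ T r := by
  have h1 := h.comp fun v => -v
  have h2 : qv (-A) = fun x => -qv A x := funext fun x => qv_neg A x
  rw [h2]
  exact h1

theorem Str.qadd [NeZero l] {A B : ι → ι → ZMod l} (h : Str (qv A) Γ T r)
    (h' : Str (qv B) Γ T s) : Str (qv (A + B)) Γ T (r * s) := by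
  have h1 := h.add h'
  have h2 : qv (A + B) = fun x => qv A x + qv B x := funext fun x => qv_add A B x
  rw [h2]
  exact h1

theorem Str.qsub [NeZero l] {A B : ι → ι → ZMod l} (h : Str (qv A) Γ T r)
    (h' : Str (qv B) Γ T s) : Str (qv (A - B)) Γ T (r * s) := by
  rw [sub_eq_add_neg]
  exact h.qadd h'.neg

/-- A function that is constant on all fibres is structured. -/
theorem str_of_const (h : ∀ x x' : ι → Bool, φ x = φ x') : Str φ Γ T 1 := by
  intro y
  exact ⟨Γ, le_rfl, by simp, fun x _ x' _ _ => h x x'⟩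

/-- Linear forms are structured. -/
theorem str_ev [NeZero l] (L : ι → ZMod l) : Str (ev L) Γ T l := by
  intro y
  refine ⟨adj Γ (fun _ : Fin 1 => L), le_adj _ _, ?_, ?_⟩
  · have := card_adj_le Γ (fun _ : Fin 1 => L)
    rw [pow_one, mul_comm] at this
    exact this
  · intro x _ x' _ hxx
    exact hxx L (mem_adj Γ (fun _ : Fin 1 => L) 0)

end Str

end Pool.Agent.Helper27.QS
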