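import Pool.Agent.Helper27.QS.Tri

/-!
# Biased quadratic forms have few rows up to few coordinates
-/

set_option autoImplicit false
set_option linter.unusedSectionVars false

namespace Pool.Agent.Helper27.QS

open Finset Pool.Agent.Helper21.LinSys

theorem exists_hc (l : ℕ) (hl : 0 < l) :
    ∃ c : ℕ, 1 ≤ c ∧ rho l ^ c ≤ 1 / 2 ∧ kap l ^ c ≤ 1 / 2 := by
  obtain ⟨n, hn⟩ := exists_pow_lt_of_lt_one (show (0 : ℝ) < 1 / 2 by norm_num) (rho_lt_one l hl)
  obtain ⟨k, hk⟩ := exists_pow_lt_of_lt_one (show (0 : ℝ) < 1 / 2 by norm_num) (kap_lt_one l hl)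
  refine ⟨n + k + 1, by omega, ?_, ?_⟩
  · exact (pow_le_pow_of_le_one (rho_pos l).le (rho_le_one l) (by omega)).trans hn.le
  · exact (pow_le_pow_of_le_one (kap_nonneg l) (kap_lt_one l hl).le (by omega)).trans hk.le

/-- A constant depending on `l` only. -/
noncomputable def hc (l : ℕ) : ℕ := if h : 0 < l then (exists_hc l h).choose else 1

theorem one_le_hc (l : ℕ) : 1 ≤ hc l := by
  unfold hc
  split
  · next h => exact (exists_hc l h).choose_spec.1
  · exact le_rfl

theorem rho_pow_hc (l : ℕ) [NeZero l] (n : ℕ) : rho l ^ (hc l * n) ≤ (1 / 2) ^ n := by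
  have h : 0 < l := Nat.pos_of_ne_zero (NeZero.ne l)
  have h1 : rho l ^ hc l ≤ 1 / 2 := by
    unfold hc
    rw [dif_pos h]
    exact (exists_hc l h).choose_spec.2.1
  rw [pow_mul]
  exact pow_le_pow_left₀ (pow_nonneg (rho_pos l).le _) h1 n

theorem kap_pow_hc (l : ℕ) [NeZero l] (n : ℕ) : kap l ^ (hc l * n) ≤ (1 / 2) ^ n := by
  have h : 0 < l := Nat.pos_of_ne_zero (NeZero.ne l)
  have h1 : kap l ^ hc l ≤ 1 / 2 := by
    unfold hc
    rw [dif_pos h]
    exact (exists_hc l h).choose_spec.2.2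
  rw [pow_mul]
  exact pow_le_pow_left₀ (pow_nonneg (kap_nonneg l) _) h1 n

variable {ι : Type*} [Fintype ι] [DecidableEq ι] {l : ℕ}

/-- The combination of rows. -/
def rowc (A : ι → ι → ZMod l) (F : Finset ι) (lam : ι → ZMod l) (i : ι) : ZMod l :=
  ∑ k ∈ F, lam k * (2 * A k i)

/-- The state of the greedy procedure. -/
def Steps (A : ι → ι → ZMod l) (T K : Finset ι) (S : ℕ) : Prop :=
  ∃ (j : Fin S → ι) (F : Fin S → Finset ι) (lam : Fin S → ι → ZMod l),
    Function.Injective j ∧ (∀ s, j s ∉ T) ∧ (∀ s, j s ∈ K) ∧ (∀ s, F s ⊆ K) ∧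
    (∀ s, Disjoint T (F s)) ∧ (∀ s t, s ≠ t → Disjoint (F s) (F t)) ∧ (∀ s t, j t ∉ F s) ∧
    (∀ s, ∀ i, i ∉ K → rowc A (F s) (lam s) i = 0) ∧
    (∀ s t, t < s → rowc A (F s) (lam s) (j t) = 0) ∧ (∀ s, rowc A (F s) (lam s) (j s) ≠ 0)

theorem Steps.bound [NeZero l] {A : ι → ι → ZMod l} (hA : Sym A) {T K : Finset ι} {S : ℕ}
    (h : Steps A T K S) (L : ι → ZMod l) (z : ι → Bool) :
    ‖∑ x ∈ cube T z, (ZMod.stdAddChar (qv A x + ev L x) : ℂ)‖ ^ 2 ≤
      (2 ^ Tᶜ.card) ^ 2 * kap l ^ S := by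
  obtain ⟨j, F, lam, h1, h2, -, -, h5, h6, h7, -, h9, h10⟩ := h
  exact tri_bound hA L T z j h1 h2 F h6 h5 h7 lam h9 h10

theorem Steps.succ {A : ι → ι → ZMod l} {T K : Finset ι} {S : ℕ} (hTK : T ⊆ K)
    (h : Steps A T K S) (F₀ : Finset ι) (hF₀ : Disjoint K F₀) (lam₀ : ι → ZMod l) (j₀ : ι)
    (hj₀ : j₀ ∉ K) (hj₁ : j₀ ∉ F₀) (hne : rowc A F₀ lam₀ j₀ ≠ 0) :
    Steps A T (K ∪ F₀ ∪ univ.filter fun i => i ∉ K ∧ i ∉ F₀ ∧ rowc A F₀ lam₀ i ≠ 0) (S + 1) := by
  classical
  obtain ⟨j, F, lam, h1, h2, h3, h4, h5, h6, h7, h8, h9, h10⟩ := h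
  set K' := K ∪ F₀ ∪ univ.filter fun i => i ∉ K ∧ i ∉ F₀ ∧ rowc A F₀ lam₀ i ≠ 0 with hK'
  have hKK' : K ⊆ K' := fun i hi => by
    rw [hK', Finset.mem_union, Finset.mem_union]
    exact Or.inl (Or.inl hi)
  have hFK' : F₀ ⊆ K' := fun i hi => by
    rw [hK', Finset.mem_union, Finset.mem_union]
    exact Or.inl (Or.inr hi)
  have hjK' : j₀ ∈ K' := by
    rw [hK', Finset.mem_union, Finset.mem_filter]
    exact Or.inr ⟨Finset.mem_univ _, hj₀, hj₁, hne⟩
  refine ⟨Fin.cons j₀ j, Fin.cons F₀ F, Fin.cons lam₀ lam, ?_, ?_, ?_, ?_, ?_, ?_, ?_, ?_, ?_,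
    ?_⟩
  · rw [Fin.cons_injective_iff]
    refine ⟨?_, h1⟩
    rintro ⟨s, hs⟩
    exact hj₀ (hs ▸ h3 s)
  · intro s
    refine Fin.cases ?_ (fun s => ?_) s
    · rw [Fin.cons_zero]; exact fun h => hj₀ (hTK h)
    · rw [Fin.cons_succ]; exact h2 s
  · intro s
    refine Fin.cases ?_ (fun s => ?_) s
    · rw [Fin.cons_zero]; exact hjK'
    · rw [Fin.cons_succ]; exact hKK' (h3 s)
  · intro s
    refine Fin.cases ?_ (fun s => ?_) s
    · rw [Fin.cons_zero]; exact hFK'
    · rw [Fin.cons_succ]; exact (h4 s).trans hKK'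
  · intro s
    refine Fin.cases ?_ (fun s => ?_) s
    · rw [Fin.cons_zero]; exact Finset.disjoint_of_subset_left hTK hF₀
    · rw [Fin.cons_succ]; exact h5 s
  · intro s t
    refine Fin.cases ?_ (fun s => ?_) s
    · refine Fin.cases ?_ (fun t => ?_) t
      · intro h; exact absurd rfl h
      · intro _
        rw [Fin.cons_zero, Fin.cons_succ]
        exact (Finset.disjoint_of_subset_left (h4 t) hF₀).symm
    · refine Fin.cases ?_ (fun t => ?_) t
      · intro _
        rw [Fin.cons_zero, Fin.cons_succ]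
        exact Finset.disjoint_of_subset_left (h4 s) hF₀
      · intro h
        rw [Fin.cons_succ, Fin.cons_succ]
        exact h6 s t fun h' => h (by rw [h'])
  · intro s t
    refine Fin.cases ?_ (fun s => ?_) s
    · refine Fin.cases ?_ (fun t => ?_) t
      · rw [Fin.cons_zero, Fin.cons_zero]; exact hj₁
      · rw [Fin.cons_zero, Fin.cons_succ]
        exact Finset.disjoint_left.1 hF₀ (h3 t)
    · refine Fin.cases ?_ (fun t => ?_) t
      · rw [Fin.cons_zero, Fin.cons_succ]
        exact fun h => hj₀ (h4 s h)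
      · rw [Fin.cons_succ, Fin.cons_succ]; exact h7 s t
  · intro s i hi
    have hi1 : i ∉ K := fun h => hi (hKK' h)
    refine Fin.cases ?_ (fun s => ?_) s
    · rw [Fin.cons_zero, Fin.cons_zero]
      by_contra hcon
      apply hi
      rw [hK', Finset.mem_union, Finset.mem_filter]
      exact Or.inr ⟨Finset.mem_univ _, hi1, fun h => hi (hFK' h), hcon⟩
    · rw [Fin.cons_succ, Fin.cons_succ]; exact h8 s i hi1
  · intro s t
    refine Fin.cases ?_ (fun s => ?_) s
    · intro h
      exact absurd h (Fin.not_lt_zero _)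
    · refine Fin.cases ?_ (fun t => ?_) t
      · intro _
        simp only [Fin.cons_succ, Fin.cons_zero]
        exact h8 s j₀ hj₀
      · intro h
        simp only [Fin.cons_succ]
        exact h9 s t (Fin.succ_lt_succ_iff.1 h)
  · intro s
    refine Fin.cases ?_ (fun s => ?_) s
    · simp only [Fin.cons_zero]; exact hne
    · simp only [Fin.cons_succ]; exact h10 s

/-- Combinations of at most `R` rows outside `K` vanish outside `K` and their indices or have at
least `θ` nonzero entries there. -/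
def RegK (A : ι → ι → ZMod l) (K : Finset ι) (R θ : ℕ) : Prop :=
  ∀ F : Finset ι, Disjoint K F → F.card ≤ R → ∀ lam : ι → ZMod l,
    (∀ i, i ∉ K → i ∉ F → rowc A F lam i = 0) ∨
      θ ≤ (univ.filter fun i => i ∉ K ∧ i ∉ F ∧ rowc A F lam i ≠ 0).card

theorem greedy (A : ι → ι → ZMod l) (T : Finset ι) (R θ N : ℕ) :
    ∃ S ≤ N, ∃ K : Finset ι, T ⊆ K ∧ (K \ T).card ≤ S * (R + θ) ∧ Steps A T K S ∧
      (RegK A K R θ ∨ S = N) := by
  classical
  induction N with
  | zero =>
    refine ⟨0, le_rfl, T, Finset.Subset.refl _, by simp, ?_, Or.inr rfl⟩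
    exact ⟨Fin.elim0, Fin.elim0, Fin.elim0, fun a => a.elim0, fun a => a.elim0,
      fun a => a.elim0, fun a => a.elim0, fun a => a.elim0, fun a => a.elim0,
      fun a => a.elim0, fun a => a.elim0, fun a => a.elim0, fun a => a.elim0⟩
  | succ N ih =>
    obtain ⟨S, hS, K, hTK, hcard, hst, hor⟩ := ih
    by_cases hreg : RegK A K R θ
    · exact ⟨S, by omega, K, hTK, hcard, hst, Or.inl hreg⟩
    · have hSN : S = N := by
        rcases hor with h | h
        · exact absurd h hreg
        · exact h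
      unfold RegK at hreg
      push Not at hreg
      obtain ⟨F, hF, hFR, lam, ⟨j, hjK, hjF, hne⟩, hlt⟩ := hreg
      refine ⟨S + 1, by omega, _, ?_, ?_, hst.succ hTK F hF lam j hjK hjF hne, Or.inr (by omega)⟩
      · exact hTK.trans (Finset.subset_union_left.trans Finset.subset_union_left)
      · have h1 : (K ∪ F ∪ univ.filter fun i => i ∉ K ∧ i ∉ F ∧ rowc A F lam i ≠ 0) \ T ⊆
            (K \ T) ∪ (F ∪ univ.filter fun i => i ∉ K ∧ i ∉ F ∧ rowc A F lam i ≠ 0) := by
          intro i hi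
          rw [Finset.mem_sdiff, Finset.mem_union, Finset.mem_union] at hi
          rw [Finset.mem_union, Finset.mem_sdiff, Finset.mem_union]
          rcases hi with ⟨(h | h) | h, h'⟩
          · exact Or.inl ⟨h, h'⟩
          · exact Or.inr (Or.inl h)
          · exact Or.inr (Or.inr h)
        refine (Finset.card_le_card h1).trans ((Finset.card_union_le _ _).trans ?_)
        have h2 := Finset.card_union_le F
          (univ.filter fun i => i ∉ K ∧ i ∉ F ∧ rowc A F lam i ≠ 0)
        rw [Nat.succ_mul]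
        omega

/-- The differences of 0-1 vectors supported in `F` give nonzero combinations of rows. -/
def Ind (A : ι → ι → ZMod l) (K F : Finset ι) : Prop :=
  ∀ u v : ι → Bool, (∃ k ∈ F, u k ≠ v k) →
    ∃ i, i ∉ K ∧ i ∉ F ∧ rowc A F (fun k => bit l (u k) - bit l (v k)) i ≠ 0

/-- Every row outside `K ∪ F` is off the diagonal, outside `K ∪ F`, a combination of the rows
in `F`. -/
def Spans (A : ι → ι → ZMod l) (K F : Finset ι) : Prop :=
  ∀ i, i ∉ K → i ∉ F → ∃ lam : ι → ZMod l, ∀ i', i' ∉ K → i' ∉ F → i' ≠ i →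
    2 * A i i' = rowc A F lam i'

theorem rowc_insert (A : ι → ι → ZMod l) (F : Finset ι) (lam : ι → ZMod l) (i₀ : ι)
    (h : i₀ ∉ F) (i : ι) :
    rowc A (insert i₀ F) lam i = lam i₀ * (2 * A i₀ i) + rowc A F lam i := by
  unfold rowc
  rw [Finset.sum_insert h]

theorem chain_exists (A : ι → ι → ZMod l) (K : Finset ι) (R θ : ℕ) (hreg : RegK A K R θ)
    (hθ : 2 ≤ θ) : ∀ n ≤ R, (∃ F : Finset ι, Disjoint K F ∧ F.card = n ∧ Ind A K F) ∨
      ∃ F : Finset ι, Disjoint K F ∧ F.card < n ∧ Spans A K F := by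
  classical
  intro n
  induction n with
  | zero =>
    intro _
    refine Or.inl ⟨∅, Finset.disjoint_empty_right _, rfl, ?_⟩
    rintro u v ⟨k, hk, -⟩
    exact absurd hk (Finset.notMem_empty k)
  | succ n ih =>
    intro hn
    rcases ih (by omega) with ⟨F, hF, hcard, hind⟩ | ⟨F, hF, hcard, hsp⟩
    · by_cases hsp : Spans A K F
      · exact Or.inr ⟨F, hF, by omega, hsp⟩
      · unfold Spans at hsp
        push Not at hsp
        obtain ⟨i₀, hi₀K, hi₀F, hno⟩ := hsp
        refine Or.inl ⟨insert i₀ F, ?_, ?_, ?_⟩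
        · rw [Finset.disjoint_insert_right]
          exact ⟨hi₀K, hF⟩
        · rw [Finset.card_insert_of_notMem hi₀F, hcard]
        · rintro u v huv
          by_cases h : u i₀ = v i₀
          · -- the new coordinate does not matter
            have hex : ∃ k ∈ F, u k ≠ v k := by
              obtain ⟨k, hk, hkuv⟩ := huv
              rcases Finset.mem_insert.1 hk with rfl | hk
              · exact absurd h hkuv
              · exact ⟨k, hk, hkuv⟩
            obtain ⟨i, hiK, hiF, hne⟩ := hind u v hex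
            have h2 : 2 ≤ (univ.filter fun i => i ∉ K ∧ i ∉ F ∧
                rowc A F (fun k => bit l (u k) - bit l (v k)) i ≠ 0).card := by
              rcases hreg F hF (by omega) (fun k => bit l (u k) - bit l (v k)) with h3 | h3
              · exact absurd (h3 i hiK hiF) hne
              · omega
            obtain ⟨a, ha, hai⟩ : ∃ a ∈ (univ.filter fun i => i ∉ K ∧ i ∉ F ∧
                rowc A F (fun k => bit l (u k) - bit l (v k)) i ≠ 0), a ≠ i₀ := by
              by_contra hcon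
              push Not at hcon
              have := Finset.card_le_one.2 (fun a ha b hb => (hcon a ha).trans (hcon b hb).symm)
              omega
            rw [Finset.mem_filter] at ha
            refine ⟨a, ha.2.1, ?_, ?_⟩
            · rw [Finset.mem_insert, not_or]
              exact ⟨hai, ha.2.2.1⟩
            · rw [rowc_insert _ _ _ _ hi₀F, h, sub_self, zero_mul, zero_add]
              exact ha.2.2.2
          · -- the new coordinate matters
            have hbit : ∃ s : ZMod l, bit l (u i₀) - bit l (v i₀) = s ∧ s * s = 1 := by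
              cases hu : u i₀ <;> cases hv : v i₀
              · rw [hu, hv] at h; exact absurd rfl h
              · exact ⟨-1, by simp [bit], by ring⟩
              · exact ⟨1, by simp [bit], by ring⟩
              · rw [hu, hv] at h; exact absurd rfl h
            obtain ⟨s, hs, hss⟩ := hbit
            obtain ⟨i', hi'K, hi'F, hi'i, hne⟩ := hno
              (fun k => -s * (bit l (u k) - bit l (v k)))
            refine ⟨i', hi'K, ?_, ?_⟩
            · rw [Finset.mem_insert, not_or]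
              exact ⟨hi'i, hi'F⟩
            · rw [rowc_insert _ _ _ _ hi₀F, hs]
              intro h0
              apply hne
              have h4 : rowc A F (fun k => -s * (bit l (u k) - bit l (v k))) i' =
                  -s * rowc A F (fun k => bit l (u k) - bit l (v k)) i' := by
                unfold rowc
                rw [Finset.mul_sum]
                refine Finset.sum_congr rfl fun k _ => ?_
                ring
              rw [h4]
              linear_combination (-(2 * A i₀ i') : ZMod l) * hss + s * h0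
    · exact Or.inr ⟨F, hF, by omega, hsp⟩

theorem rowc_eq_dform {A : ι → ι → ZMod l} (hA : Sym A) (F : Finset ι) (u v : ι → Bool) (i : ι)
    (hi : i ∉ F) : dform A F u v i = rowc A F (fun k => bit l (u k) - bit l (v k)) i := by
  unfold dform rowc
  rw [if_neg hi]
  refine Finset.sum_congr rfl fun k _ => ?_
  rw [hA i k]
  ring

/-- The size of the exceptional set. -/
noncomputable def kA (l b : ℕ) : ℕ := hc l * (2 * b + 1) * ((2 * b + 2) + hc l * (2 * b + 2))

/-- **Inverse theorem on the cube.** -/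
theorem inverse_cube [NeZero l] {A : ι → ι → ZMod l} (hA : Sym A) (L : ι → ZMod l)
    (T : Finset ι) (z : ι → Bool) (b : ℕ)
    (hb : (1 / 2) ^ b * 2 ^ Tᶜ.card ≤
      ‖∑ x ∈ cube T z, (ZMod.stdAddChar (qv A x + ev L x) : ℂ)‖) :
    ∃ K F : Finset ι, T ⊆ K ∧ Disjoint K F ∧ (K \ T).card ≤ kA l b ∧ F.card < 2 * b + 2 ∧
      Spans A K F := by
  classical
  have hlow : (2 ^ Tᶜ.card) ^ 2 * (1 / 2 : ℝ) ^ (2 * b) ≤
      ‖∑ x ∈ cube T z, (ZMod.stdAddChar (qv A x + ev L x) : ℂ)‖ ^ 2 := by
    have h1 := pow_le_pow_left₀ (by positivity) hb 2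
    calc (2 ^ Tᶜ.card) ^ 2 * (1 / 2 : ℝ) ^ (2 * b) = ((1 / 2) ^ b * 2 ^ Tᶜ.card) ^ 2 := by
          rw [mul_pow, ← pow_mul (1 / 2 : ℝ) b 2, mul_comm b 2]; ring
      _ ≤ _ := h1
  have hstrict : (1 / 2 : ℝ) ^ (2 * b + 1) < (1 / 2 : ℝ) ^ (2 * b) :=
    pow_lt_pow_right_of_lt_one₀ (by norm_num) (by norm_num) (by omega)
  have hpos : (0 : ℝ) < (2 ^ Tᶜ.card) ^ 2 := by positivity
  obtain ⟨S, hS, K, hTK, hcard, hst, hor⟩ :=
    greedy A T (2 * b + 2) (hc l * (2 * b + 2)) (hc l * (2 * b + 1))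
  have hreg : RegK A K (2 * b + 2) (hc l * (2 * b + 2)) := by
    rcases hor with h | h
    · exact h
    · exfalso
      have h1 := hst.bound hA L z
      rw [h] at h1
      have h2 := kap_pow_hc l (2 * b + 1)
      have h3 := mul_le_mul_of_nonneg_left h2 hpos.le
      have h4 := mul_lt_mul_of_pos_left hstrict hpos
      linarith
  have hθ : 2 ≤ hc l * (2 * b + 2) := by
    have := one_le_hc l
    calc 2 ≤ 1 * (2 * b + 2) := by omega
      _ ≤ _ := Nat.mul_le_mul_right _ this
  rcases chain_exists A K (2 * b + 2) _ hreg hθ (2 * b + 2) le_rfl with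
    ⟨F, hF, hFc, hind⟩ | ⟨F, hF, hFc, hsp⟩
  · exfalso
    have h1 := chain_bound hA L T F (Finset.disjoint_of_subset_left hTK hF) z
      (hc l * (2 * b + 2)) (by
        intro u v huv
        obtain ⟨i, hiK, hiF, hne⟩ := hind u v huv
        rcases hreg F hF hFc.le (fun k => bit l (u k) - bit l (v k)) with h3 | h3
        · exact absurd (h3 i hiK hiF) hne
        · refine h3.trans (Finset.card_le_card fun a ha => ?_)
          rw [Finset.mem_filter] at ha ⊢
          refine ⟨Finset.mem_univ _, fun h => ha.2.1 (hTK h), ?_⟩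
          rw [rowc_eq_dform hA F u v a ha.2.2.1]
          exact ha.2.2.2)
    rw [hFc] at h1
    have h2 := rho_pow_hc l (2 * b + 2)
    have h3 : (1 / 2 : ℝ) ^ (2 * b + 2) + (1 / 2 : ℝ) ^ (2 * b + 2) = (1 / 2) ^ (2 * b + 1) := by
      rw [pow_succ (1 / 2 : ℝ) (2 * b + 1)]
      ring
    have h4 : (1 / 2 : ℝ) ^ (2 * b + 2) + rho l ^ (hc l * (2 * b + 2)) ≤
        (1 / 2) ^ (2 * b + 1) := by linarith
    have h5 := mul_le_mul_of_nonneg_left h4 hpos.le
    have h6 := mul_lt_mul_of_pos_left hstrict hpos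
    linarith
  · refine ⟨K, F, hTK, hF, hcard.trans ?_, hFc, hsp⟩
    unfold kA
    exact Nat.mul_le_mul_right _ hS

end Pool.Agent.Helper27.QS
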