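import Pool.Agent.Helper27.QS.Greedy

/-!
# Biased quadratic forms are functions of few coordinates and few linear forms
-/

set_option autoImplicit false
set_option linter.unusedSectionVars false

namespace Pool.Agent.Helper27.QS

open Finset Pool.Agent.Helper21.LinSys

section Rows

variable {l : ℕ} [NeZero l] {V : Type*} [AddCommGroup V] [Module (ZMod l) V] [Finite V]

theorem card_span_insert {s : Set V} {x : V} (hx : x ∉ Submodule.span (ZMod l) s) :
    2 * Nat.card (Submodule.span (ZMod l) s) ≤
      Nat.card (Submodule.span (ZMod l) (insert x s)) := by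
  have h := two_mul_card_le (G := V) (A := (Submodule.span (ZMod l) s).toAddSubgroup)
    (B := (Submodule.span (ZMod l) (insert x s)).toAddSubgroup)
    ((Submodule.toAddSubgroup_le _ _).2 (Submodule.span_mono (Set.subset_insert x s))) (g := x)
    (Submodule.subset_span (Set.mem_insert x s)) hx
  exact h

/-- Few members of a family generate the others. -/
theorem exists_gens {κ : Type*} [DecidableEq κ] (U : Finset κ) (r : κ → V) (n : ℕ) :
    (∃ I ⊆ U, I.card ≤ n ∧ ∀ i ∈ U, r i ∈ Submodule.span (ZMod l) (r '' (I : Set κ))) ∨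
      ∃ I ⊆ U, I.card = n ∧ 2 ^ n ≤ Nat.card (Submodule.span (ZMod l) (r '' (I : Set κ))) := by
  induction n with
  | zero =>
    refine Or.inr ⟨∅, Finset.empty_subset _, rfl, ?_⟩
    rw [pow_zero]
    exact Nat.card_pos
  | succ n ih =>
    rcases ih with ⟨I, hI, hc, h⟩ | ⟨I, hI, hc, h⟩
    · exact Or.inl ⟨I, hI, by omega, h⟩
    · by_cases hall : ∀ i ∈ U, r i ∈ Submodule.span (ZMod l) (r '' (I : Set κ))
      · exact Or.inl ⟨I, hI, by omega, hall⟩
      · push Not at hall
        obtain ⟨i, hiU, hi⟩ := hall
        have hiI : i ∉ I := fun h' => hi (Submodule.subset_span ⟨i, h', rfl⟩)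
        refine Or.inr ⟨insert i I, Finset.insert_subset hiU hI, ?_, ?_⟩
        · rw [Finset.card_insert_of_notMem hiI, hc]
        · rw [Finset.coe_insert, Set.image_insert_eq, pow_succ, mul_comm]
          exact (Nat.mul_le_mul_left 2 h).trans (card_span_insert hi)

theorem card_span_le {κ : Type*} [DecidableEq κ] (F : Finset κ) (v : κ → V) :
    Nat.card (Submodule.span (ZMod l) (v '' (F : Set κ))) ≤ l ^ F.card := by
  classical
  have h1 : Nat.card (F → ZMod l) = l ^ F.card := by
    rw [Nat.card_eq_fintype_card, Fintype.card_fun, ZMod.card, Fintype.card_coe]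
  rw [← h1]
  refine Nat.card_le_card_of_surjective
    (fun c : F → ZMod l => (⟨∑ k : F, c k • v k, ?_⟩ :
      Submodule.span (ZMod l) (v '' (F : Set κ)))) ?_
  · refine Submodule.sum_mem _ fun k _ => Submodule.smul_mem _ _ (Submodule.subset_span ?_)
    exact ⟨k, k.2, rfl⟩
  · rintro ⟨x, hx⟩
    obtain ⟨c, hc⟩ := (Submodule.mem_span_image_finset_iff_exists_fun' (ZMod l)).1 hx
    refine ⟨fun k => c k, Subtype.ext ?_⟩
    dsimp only
    rw [← hc, ← Finset.sum_coe_sort F fun k => c k • v k]

end Rows

variable {ι : Type*} [Fintype ι] [DecidableEq ι] {l : ℕ}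

theorem sum_sym_zero (E : ι → ι → ZMod l) (U : Finset ι) (b : ι → ZMod l)
    (hb : ∀ i, b i * b i = b i) (hE : ∀ i ∈ U, ∀ j ∈ U, i ≠ j → E i j + E j i = 0) :
    ∑ i ∈ U, ∑ j ∈ U, E i j * b i * b j = ∑ i ∈ U, E i i * b i := by
  induction U using Finset.induction_on with
  | empty => simp
  | insert a U ha ih =>
    have ih' := ih fun i hi j hj => hE i (Finset.mem_insert_of_mem hi) j
      (Finset.mem_insert_of_mem hj)
    rw [Finset.sum_insert ha, Finset.sum_insert ha, Finset.sum_insert ha]
    have h1 : ∀ i, ∑ j ∈ insert a U, E i j * b i * b j =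
        E i a * b i * b a + ∑ j ∈ U, E i j * b i * b j := fun i => Finset.sum_insert ha
    rw [Finset.sum_congr rfl fun i _ => h1 i, Finset.sum_add_distrib, ih']
    have h2 : ∑ j ∈ U, E a j * b a * b j + ∑ i ∈ U, E i a * b i * b a = 0 := by
      rw [← Finset.sum_add_distrib]
      refine Finset.sum_eq_zero fun i hi => ?_
      have h3 := hE a (Finset.mem_insert_self a U) i (Finset.mem_insert_of_mem hi)
        (fun h => ha (h ▸ hi))
      linear_combination (b a * b i) * h3
    have h4 := hb a
    linear_combination h2 + E a a * h4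

theorem bit_mul_self (b : Bool) : bit l b * bit l b = bit l b := by
  cases b <;> simp [bit]

/-- A symmetric matrix whose rows are, off the diagonal, combinations of few rows is a function of
few forms. -/
theorem struct_of_spans [NeZero l] {A : ι → ι → ZMod l} (hA : Sym A) (K F : Finset ι)
    (hsp : Spans A K F) :
    ∃ 𝓛 : Finset (ι → ZMod l), 𝓛.card ≤ (K ∪ F).card + l * F.card + 1 ∧
      ∀ x y : ι → Bool, (∀ i ∈ K ∪ F, x i = y i) → (∀ L ∈ 𝓛, ev L x = ev L y) →
        qv A x = qv A y := by
  classical
  set U : Finset ι := (K ∪ F)ᶜ with hU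
  have hmemU : ∀ i, i ∈ U ↔ i ∉ K ∧ i ∉ F := fun i => by
    rw [hU, Finset.mem_compl, Finset.mem_union, not_or]
  have hsp' : ∀ i, ∃ lam : ι → ZMod l, i ∈ U → ∀ i' ∈ U, i' ≠ i →
      2 * A i i' = rowc A F lam i' := by
    intro i
    by_cases hi : i ∈ U
    · obtain ⟨lam, h⟩ := hsp i ((hmemU i).1 hi).1 ((hmemU i).1 hi).2
      exact ⟨lam, fun _ i' hi' hne => h i' ((hmemU i').1 hi').1 ((hmemU i').1 hi').2 hne⟩
    · exact ⟨0, fun h => absurd h hi⟩
  choose lam hlam using hsp'
  -- the completed matrix
  set D : ι → ι → ZMod l := fun i j => rowc A F (lam i) j with hD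
  have hDA : ∀ i ∈ U, ∀ j ∈ U, i ≠ j → D i j = 2 * A i j := fun i hi j hj hij =>
    (hlam i hi j hj hij.symm).symm
  have hDsym : ∀ i ∈ U, ∀ j ∈ U, D i j = D j i := by
    intro i hi j hj
    by_cases hij : i = j
    · rw [hij]
    · rw [hDA i hi j hj hij, hDA j hj i hi (Ne.symm hij), hA i j]
  have hDhalf : ∀ i j, ∃ d : ZMod l, D i j = 2 * d := by
    intro i j
    refine ⟨∑ k ∈ F, lam i k * A k j, ?_⟩
    rw [hD, Finset.mul_sum]
    refine Finset.sum_congr rfl fun k _ => ?_
    ring
  -- restricted rows
  set row : ι → ι → ZMod l := fun i j => if j ∈ U then D i j else 0 with hrow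
  set vrow : ι → ι → ZMod l := fun k j => if j ∈ U then 2 * A k j else 0 with hvrow
  have hspan : ∀ i, row i ∈ Submodule.span (ZMod l) (vrow '' (F : Set ι)) := by
    intro i
    rw [Submodule.mem_span_image_finset_iff_exists_fun']
    refine ⟨lam i, ?_⟩
    funext j
    simp only [Finset.sum_apply, Pi.smul_apply, smul_eq_mul, hrow, hvrow, hD]
    by_cases hj : j ∈ U
    · simp only [if_pos hj]
      rfl
    · simp [hj]
  obtain ⟨I, hIU, hIc, hI⟩ : ∃ I ⊆ U, I.card ≤ l * F.card ∧
      ∀ i ∈ U, row i ∈ Submodule.span (ZMod l) (row '' (I : Set ι)) := by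
    rcases exists_gens (l := l) U row (l * F.card + 1) with ⟨I, hI, hc, h⟩ | ⟨I, hI, hc, h⟩
    · rcases Nat.lt_or_ge (l * F.card) I.card with hlt | hge
      · -- too many generators cannot occur; use the bound for subsets
        rcases exists_gens (l := l) U row (l * F.card) with ⟨I', hI', hc', h'⟩ | ⟨I', hI', hc', h'⟩
        · exact ⟨I', hI', hc', h'⟩
        · refine ⟨I', hI', hc'.le, fun i hi => ?_⟩
          by_contra hcon
          have h1 := card_span_insert hcon
          have h2 : Nat.card (Submodule.span (ZMod l) (insert (row i) (row '' (I' : Set ι)))) ≤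
              Nat.card (Submodule.span (ZMod l) (vrow '' (F : Set ι))) := by
            refine Nat.card_le_card_of_injective (Submodule.inclusion ?_)
              (Submodule.inclusion_injective _)
            rw [Submodule.span_le]
            rintro v (rfl | ⟨a, -, rfl⟩)
            · exact hspan i
            · exact hspan a
          have h3 := card_span_le (l := l) F vrow
          have h4 : l ^ F.card ≤ 2 ^ (l * F.card) := by
            rw [pow_mul]
            exact Nat.pow_le_pow_left Nat.lt_two_pow_self.le _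
          have h5 : 0 < 2 ^ (l * F.card) := by positivity
          omega
      · exact ⟨I, hI, hge, h⟩
    · exfalso
      have h2 : Nat.card (Submodule.span (ZMod l) (row '' (I : Set ι))) ≤
          Nat.card (Submodule.span (ZMod l) (vrow '' (F : Set ι))) := by
        refine Nat.card_le_card_of_injective (Submodule.inclusion ?_)
          (Submodule.inclusion_injective _)
        rw [Submodule.span_le]
        rintro v ⟨a, -, rfl⟩
        exact hspan a
      have h3 := card_span_le (l := l) F vrow
      have h4 : l ^ F.card ≤ 2 ^ (l * F.card) := by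
        rw [pow_mul]
        exact Nat.pow_le_pow_left Nat.lt_two_pow_self.le _
      have h5 : 2 ^ (l * F.card + 1) = 2 * 2 ^ (l * F.card) := by rw [pow_succ]; ring
      have h6 : 0 < 2 ^ (l * F.card) := by positivity
      omega
  have hC : ∀ i, ∃ c : ι → ZMod l, i ∈ U → ∀ j ∈ U, D i j = ∑ a ∈ I, c a * D a j := by
    intro i
    by_cases hi : i ∈ U
    · obtain ⟨c, hc⟩ := (Submodule.mem_span_image_finset_iff_exists_fun' (ZMod l)).1 (hI i hi)
      refine ⟨c, fun _ j hj => ?_⟩
      have h1 := congrFun hc j
      simp only [Finset.sum_apply, Pi.smul_apply, smul_eq_mul, hrow, if_pos hj] at h1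
      exact h1.symm
    · exact ⟨0, fun h => absurd h hi⟩
  choose C hC using hC
  -- halves
  have hg : ∀ v : ZMod l, ∃ d : ZMod l, (∃ e : ZMod l, v = 2 * e) → v = 2 * d := by
    intro v
    by_cases h : ∃ e : ZMod l, v = 2 * e
    · obtain ⟨e, he⟩ := h
      exact ⟨e, fun _ => he⟩
    · exact ⟨0, fun h' => absurd h' h⟩
  choose g hg using hg
  set P : ι → ι → ZMod l := fun i j => ∑ a ∈ I, ∑ b ∈ I, C i a * C j b * g (D a b) with hP
  have hPD : ∀ i ∈ U, ∀ j ∈ U, 2 * P i j = D i j := by
    intro i hi j hj
    rw [hC i hi j hj, hP]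
    dsimp only
    rw [Finset.mul_sum]
    refine Finset.sum_congr rfl fun a ha => ?_
    rw [hDsym a (hIU ha) j hj, hC j hj a (hIU ha), Finset.mul_sum, Finset.mul_sum]
    refine Finset.sum_congr rfl fun b hb => ?_
    rw [hDsym b (hIU hb) a (hIU ha)]
    have h1 := hg (D a b) (hDhalf a b)
    linear_combination (-(C i a * C j b)) * h1
  have hPsym : ∀ i j, P i j = P j i := by
    intro i j
    rw [hP]
    dsimp only
    rw [Finset.sum_comm]
    refine Finset.sum_congr rfl fun a ha => Finset.sum_congr rfl fun b hb => ?_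
    rw [hDsym b (hIU hb) a (hIU ha)]
    ring
  -- the forms
  set formC : ι → ι → ZMod l := fun a i => if i ∈ U then C i a else 0 with hformC
  set formD : ι → ZMod l := fun i => if i ∈ U then A i i - P i i else 0 with hformD
  refine ⟨(K ∪ F).image (fun k => A k) ∪ I.image formC ∪ {formD}, ?_, ?_⟩
  · refine (Finset.card_union_le _ _).trans ?_
    rw [Finset.card_singleton]
    have h1 := Finset.card_union_le ((K ∪ F).image (fun k => A k)) (I.image formC)
    have h2 : ((K ∪ F).image (fun k => A k)).card ≤ (K ∪ F).card := Finset.card_image_le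
    have h3 : (I.image formC).card ≤ I.card := Finset.card_image_le
    omega
  · -- the formula
    have key : ∀ x : ι → Bool, qv A x =
        ∑ k ∈ K ∪ F, bit l (x k) * ev (A k) x +
        ∑ k ∈ K ∪ F, bit l (x k) * (ev (A k) x - ∑ j ∈ K ∪ F, A k j * bit l (x j)) +
        (∑ a ∈ I, ∑ b ∈ I, g (D a b) * ev (formC a) x * ev (formC b) x + ev formD x) := by
      intro x
      have hsplit : ∀ f : ι → ZMod l, ∑ i, f i = ∑ i ∈ K ∪ F, f i + ∑ i ∈ U, f i := by
        intro f
        rw [hU, Finset.sum_add_sum_compl]
      have e1 : qv A x = ∑ k ∈ K ∪ F, bit l (x k) * ev (A k) x +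
          ∑ i ∈ U, ∑ j, A i j * bit l (x i) * bit l (x j) := by
        rw [qv_eq_bl]
        unfold bl
        rw [hsplit]
        congr 1
        refine Finset.sum_congr rfl fun k _ => ?_
        rw [ev_eq_sum, Finset.mul_sum]
        refine Finset.sum_congr rfl fun j _ => ?_
        ring
      have e2 : ∑ i ∈ U, ∑ j, A i j * bit l (x i) * bit l (x j) =
          ∑ k ∈ K ∪ F, bit l (x k) * (ev (A k) x - ∑ j ∈ K ∪ F, A k j * bit l (x j)) +
          ∑ i ∈ U, ∑ j ∈ U, A i j * bit l (x i) * bit l (x j) := by
        rw [Finset.sum_congr rfl fun i _ => hsplit _, Finset.sum_add_distrib]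
        congr 1
        rw [Finset.sum_comm]
        refine Finset.sum_congr rfl fun k _ => ?_
        rw [ev_eq_sum, hsplit, add_sub_cancel_left, Finset.mul_sum]
        refine Finset.sum_congr rfl fun i _ => ?_
        rw [hA i k]
        ring
      have e3 : ∑ i ∈ U, ∑ j ∈ U, A i j * bit l (x i) * bit l (x j) =
          ∑ i ∈ U, ∑ j ∈ U, P i j * bit l (x i) * bit l (x j) + ev formD x := by
        have h1 := sum_sym_zero (fun i j => A i j - P i j) U (fun i => bit l (x i))
          (fun i => bit_mul_self (x i)) (by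
            intro i hi j hj hij
            have h2 := hPD i hi j hj
            rw [hDA i hi j hj hij] at h2
            have h3 := hA i j
            have h4 := hPsym i j
            linear_combination (-1 : ZMod l) * h2 - h3 + h4)
        have h2 : ev formD x = ∑ i ∈ U, (A i i - P i i) * bit l (x i) := by
          rw [ev_eq_sum, ← Finset.sum_subset (Finset.subset_univ U)]
          · refine Finset.sum_congr rfl fun i hi => ?_
            rw [hformD]
            simp only [if_pos hi]
          · intro i _ hi
            rw [hformD]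
            simp [hi]
        rw [h2, ← h1, ← Finset.sum_add_distrib]
        refine Finset.sum_congr rfl fun i _ => ?_
        rw [← Finset.sum_add_distrib]
        refine Finset.sum_congr rfl fun j _ => ?_
        ring
      have e4 : ∑ i ∈ U, ∑ j ∈ U, P i j * bit l (x i) * bit l (x j) =
          ∑ a ∈ I, ∑ b ∈ I, g (D a b) * ev (formC a) x * ev (formC b) x := by
        have h1 : ∀ a, ev (formC a) x = ∑ i ∈ U, C i a * bit l (x i) := by
          intro a
          rw [ev_eq_sum, ← Finset.sum_subset (Finset.subset_univ U)]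
          · refine Finset.sum_congr rfl fun i hi => ?_
            rw [hformC]
            simp only [if_pos hi]
          · intro i _ hi
            rw [hformC]
            simp [hi]
        have h2 : ∀ i j, P i j * bit l (x i) * bit l (x j) = ∑ a ∈ I, ∑ b ∈ I,
            g (D a b) * (C i a * bit l (x i)) * (C j b * bit l (x j)) := by
          intro i j
          rw [hP]
          dsimp only
          rw [Finset.sum_mul, Finset.sum_mul]
          refine Finset.sum_congr rfl fun a _ => ?_
          rw [Finset.sum_mul, Finset.sum_mul]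
          refine Finset.sum_congr rfl fun b _ => ?_
          ring
        have h3 : ∀ a b, g (D a b) * ev (formC a) x * ev (formC b) x = ∑ i ∈ U, ∑ j ∈ U,
            g (D a b) * (C i a * bit l (x i)) * (C j b * bit l (x j)) := by
          intro a b
          rw [h1, h1, mul_assoc, Finset.sum_mul_sum, Finset.mul_sum]
          refine Finset.sum_congr rfl fun i _ => ?_
          rw [Finset.mul_sum]
          refine Finset.sum_congr rfl fun j _ => ?_
          ring
        rw [Finset.sum_congr rfl fun i _ => Finset.sum_congr rfl fun j _ => h2 i j,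
          Finset.sum_congr rfl fun a _ => Finset.sum_congr rfl fun b _ => h3 a b]
        have h4 : ∀ i ∈ U, ∑ j ∈ U, ∑ a ∈ I, ∑ b ∈ I,
            g (D a b) * (C i a * bit l (x i)) * (C j b * bit l (x j)) =
            ∑ a ∈ I, ∑ b ∈ I, ∑ j ∈ U,
            g (D a b) * (C i a * bit l (x i)) * (C j b * bit l (x j)) := by
          intro i _
          rw [Finset.sum_comm]
          exact Finset.sum_congr rfl fun a _ => Finset.sum_comm
        rw [Finset.sum_congr rfl h4, Finset.sum_comm]
        exact Finset.sum_congr rfl fun a _ => Finset.sum_comm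
      rw [e1, e2, e3, e4]
      ring
    intro x y hxy hL
    have hA' : ∀ k ∈ K ∪ F, ev (A k) x = ev (A k) y := fun k hk => hL _ (by
      rw [Finset.mem_union, Finset.mem_union, Finset.mem_image]
      exact Or.inl (Or.inl ⟨k, hk, rfl⟩))
    have hC' : ∀ a ∈ I, ev (formC a) x = ev (formC a) y := fun a ha => hL _ (by
      rw [Finset.mem_union, Finset.mem_union, Finset.mem_image (s := I)]
      exact Or.inl (Or.inr ⟨a, ha, rfl⟩))
    have hD' : ev formD x = ev formD y := hL _ (by
      rw [Finset.mem_union, Finset.mem_singleton]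
      exact Or.inr rfl)
    rw [key x, key y, hD']
    congr 1
    · congr 1
      · exact Finset.sum_congr rfl fun k hk => by rw [hxy k hk, hA' k hk]
      · refine Finset.sum_congr rfl fun k hk => ?_
        rw [hxy k hk, hA' k hk, Finset.sum_congr rfl fun j hj => by rw [hxy j hj]]
    · congr 1
      refine Finset.sum_congr rfl fun a ha => Finset.sum_congr rfl fun b hb => ?_
      rw [hC' a ha, hC' b hb]

/-- **Inverse theorem**: biased quadratic forms are functions of few coordinates and few forms. -/
theorem struct_of_bias [NeZero l] {A : ι → ι → ZMod l} (hA : Sym A) (L : ι → ZMod l)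
    (T : Finset ι) (z : ι → Bool) (b : ℕ)
    (hb : (1 / 2) ^ b * 2 ^ Tᶜ.card ≤
      ‖∑ x ∈ cube T z, (ZMod.stdAddChar (qv A x + ev L x) : ℂ)‖) :
    ∃ (K : Finset ι) (𝓛 : Finset (ι → ZMod l)), T ⊆ K ∧
      K.card ≤ T.card + kA l b + (2 * b + 2) ∧
      𝓛.card ≤ T.card + kA l b + (l + 1) * (2 * b + 2) + 1 ∧
      ∀ x y : ι → Bool, (∀ i ∈ K, x i = y i) → (∀ L ∈ 𝓛, ev L x = ev L y) →
        qv A x = qv A y := by
  classical
  obtain ⟨K, F, hTK, hKF, hc, hF, hsp⟩ := inverse_cube hA L T z b hb
  obtain ⟨𝓛, h𝓛, h⟩ := struct_of_spans hA K F hsp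
  have h1 : K.card ≤ T.card + kA l b := by
    have h2 : K.card = (K \ T).card + T.card := by
      rw [Finset.card_sdiff_of_subset hTK]
      have := Finset.card_le_card hTK
      omega
    omega
  have h2 := Finset.card_union_le K F
  refine ⟨K ∪ F, 𝓛, hTK.trans Finset.subset_union_left, by omega, ?_, h⟩
  have h3 : l * F.card ≤ l * (2 * b + 2) := Nat.mul_le_mul_left _ hF.le
  have h4 : (l + 1) * (2 * b + 2) = l * (2 * b + 2) + (2 * b + 2) := by ring
  omega

end Pool.Agent.Helper27.QS
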