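import Pool.Agent.Helper27.QS.VdC

/-!
# The triangular bound
-/

set_option autoImplicit false
set_option linter.unusedSectionVars false

namespace Pool.Agent.Helper27.QS

open Finset Pool.Agent.Helper21.LinSys

theorem rho_lt_one (l : ℕ) (hl : 0 < l) : rho l < 1 := by
  unfold rho
  rw [Real.exp_lt_one_iff]
  have : (0 : ℝ) < l := by exact_mod_cast hl
  have : (0 : ℝ) < 2 / (l : ℝ) ^ 2 := by positivity
  linarith

/-- The weights. -/
noncomputable def wt (l : ℕ) (a : ZMod l) : ℝ := if a = 0 then 1 else rho l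

/-- The distribution whose Fourier transform is `wt`. -/
noncomputable def pr (l : ℕ) (a : ZMod l) : ℝ := (1 - rho l) / l + if a = 0 then rho l else 0

/-- The loss in one step. -/
noncomputable def kap (l : ℕ) : ℝ := 1 - (1 - rho l) ^ 2 / 2

theorem wt_nonneg (l : ℕ) (a : ZMod l) : 0 ≤ wt l a := by
  unfold wt
  split
  · norm_num
  · exact (rho_pos l).le

theorem wt_le_one (l : ℕ) (a : ZMod l) : wt l a ≤ 1 := by
  unfold wt
  split
  · exact le_rfl
  · exact rho_le_one l

theorem pr_nonneg (l : ℕ) (a : ZMod l) : 0 ≤ pr l a := by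
  unfold pr
  have h1 := rho_le_one l
  have h2 := rho_pos l
  have h3 : 0 ≤ (1 - rho l) / l := div_nonneg (by linarith) (Nat.cast_nonneg _)
  split <;> linarith

theorem kap_nonneg (l : ℕ) : 0 ≤ kap l := by
  unfold kap
  have h1 := rho_le_one l
  have h2 := rho_pos l
  nlinarith

theorem kap_lt_one (l : ℕ) (hl : 0 < l) : kap l < 1 := by
  unfold kap
  have h1 := rho_lt_one l hl
  have : 0 < (1 - rho l) ^ 2 := by
    have : 0 < 1 - rho l := by linarith
    positivity
  linarith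

theorem sum_pr (l : ℕ) [NeZero l] : ∑ a : ZMod l, pr l a = 1 := by
  unfold pr
  rw [Finset.sum_add_distrib, Finset.sum_const, Finset.card_univ, ZMod.card, nsmul_eq_mul,
    Finset.sum_ite_eq' univ (0 : ZMod l), if_pos (Finset.mem_univ _)]
  have : (l : ℝ) ≠ 0 := by exact_mod_cast NeZero.ne l
  field_simp
  ring

theorem wt_eq_sum (l : ℕ) [NeZero l] (a : ZMod l) :
    ((wt l a : ℝ) : ℂ) = ∑ χ : ZMod l, ((pr l χ : ℝ) : ℂ) * ZMod.stdAddChar (χ * a) := by
  have h0 : (l : ℂ) ≠ 0 := by exact_mod_cast NeZero.ne l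
  have h1 : ∑ χ : ZMod l, (ZMod.stdAddChar (χ * a) : ℂ) = if a = 0 then (l : ℂ) else 0 := by
    have h2 := AddChar.sum_mulShift (R := ZMod l) (R' := ℂ) (ψ := ZMod.stdAddChar) a
      (ZMod.isPrimitive_stdAddChar l)
    rw [h2, ZMod.card]
    split <;> simp
  unfold pr wt
  push_cast
  have h3 : ∀ χ : ZMod l, (((1 - rho l : ℝ) : ℂ) / l +
      ((if χ = 0 then rho l else 0 : ℝ) : ℂ)) * (ZMod.stdAddChar (χ * a) : ℂ) =
      ((1 - rho l : ℝ) : ℂ) / l * ZMod.stdAddChar (χ * a) +
      if χ = 0 then ((rho l : ℝ) : ℂ) else 0 := by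
    intro χ
    by_cases hχ : χ = 0
    · rw [if_pos hχ, if_pos hχ, hχ, zero_mul, AddChar.map_zero_eq_one]
      ring
    · rw [if_neg hχ, if_neg hχ]
      simp
  push_cast at h3
  rw [Finset.sum_congr rfl fun χ _ => h3 χ, Finset.sum_add_distrib, ← Finset.mul_sum, h1,
    Finset.sum_ite_eq' univ (0 : ZMod l), if_pos (Finset.mem_univ _)]
  by_cases ha : a = 0
  · rw [if_pos ha, if_pos ha]
    field_simp
    push_cast
    ring
  · rw [if_neg ha, if_neg ha]
    simp

/-- The number of solutions of a nontrivial linear equation modulo `l`. -/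
theorem card_sol (l : ℕ) [NeZero l] (g c : ZMod l) (hg : g ≠ 0) :
    2 * (univ.filter fun χ : ZMod l => χ * g + c = 0).card ≤ l := by
  classical
  set S := univ.filter fun χ : ZMod l => χ * g + c = 0 with hS
  have h1 : Disjoint S (S.map (addRightEmbedding (1 : ZMod l))) := by
    rw [Finset.disjoint_left]
    intro a ha hb
    rw [Finset.mem_map] at hb
    obtain ⟨b, hb, hab⟩ := hb
    rw [addRightEmbedding_apply] at hab
    rw [hS, Finset.mem_filter] at ha hb
    apply hg
    have h1 := ha.2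
    have h2 := hb.2
    rw [← hab] at h1
    linear_combination h1 - h2
  have h2 := Finset.card_le_univ (S ∪ S.map (addRightEmbedding (1 : ZMod l)))
  rw [Finset.card_union_of_disjoint h1, Finset.card_map, ZMod.card] at h2
  omega

theorem sum_one (l : ℕ) [NeZero l] (g c : ZMod l) (hg : g ≠ 0) :
    ∑ χ : ZMod l, pr l χ * wt l (χ * g + c) ≤ kap l := by
  classical
  have hρ0 := rho_pos l
  have hρ1 := rho_le_one l
  have hl : (0 : ℝ) < l := by exact_mod_cast Nat.pos_of_ne_zero (NeZero.ne l)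
  have h1 : ∀ χ : ZMod l, pr l χ * wt l (χ * g + c) =
      rho l * pr l χ + (1 - rho l) * (if χ * g + c = 0 then pr l χ else 0) := by
    intro χ
    unfold wt
    split <;> ring
  rw [Finset.sum_congr rfl fun χ _ => h1 χ, Finset.sum_add_distrib, ← Finset.mul_sum,
    ← Finset.mul_sum, sum_pr, mul_one, ← Finset.sum_filter]
  have h2 : ∑ χ ∈ univ.filter (fun χ : ZMod l => χ * g + c = 0), pr l χ ≤
      (1 - rho l) / 2 + rho l := by
    unfold pr
    rw [Finset.sum_add_distrib, Finset.sum_const, nsmul_eq_mul]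
    have h3 := card_sol l g c hg
    have h4 : ((univ.filter (fun χ : ZMod l => χ * g + c = 0)).card : ℝ) * ((1 - rho l) / l) ≤
        (1 - rho l) / 2 := by
      have h5 : (2 : ℝ) * (univ.filter (fun χ : ZMod l => χ * g + c = 0)).card ≤ l := by
        exact_mod_cast h3
      rw [mul_div_assoc', div_le_div_iff₀ hl (by norm_num)]
      nlinarith [mul_le_mul_of_nonneg_left h5 (sub_nonneg.2 hρ1)]
    have h6 : ∑ χ ∈ univ.filter (fun χ : ZMod l => χ * g + c = 0),
        (if χ = 0 then rho l else 0) ≤ rho l := by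
      rw [← Finset.sum_filter, Finset.sum_const, nsmul_eq_mul]
      have h7 : ((univ.filter (fun χ : ZMod l => χ * g + c = 0)).filter
          fun χ => χ = 0).card ≤ 1 := by
        rw [Finset.card_le_one]
        intro a ha b hb
        rw [(Finset.mem_filter.1 ha).2, (Finset.mem_filter.1 hb).2]
      have h8 : (((univ.filter (fun χ : ZMod l => χ * g + c = 0)).filter
          fun χ => χ = 0).card : ℝ) ≤ 1 := by exact_mod_cast h7
      calc _ ≤ 1 * rho l := mul_le_mul_of_nonneg_right h8 hρ0.le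
        _ = _ := one_mul _
    linarith
  have h9 := mul_le_mul_of_nonneg_left h2 (sub_nonneg.2 hρ1)
  unfold kap
  nlinarith

/-- Summation over a triangular system. The constraint `s` involves the variables `t ≥ s`. -/
theorem sum_tri (l : ℕ) [NeZero l] : ∀ (S : ℕ) (g : Fin S → Fin S → ZMod l),
    (∀ s t, t < s → g s t = 0) → (∀ s, g s s ≠ 0) →
    ∑ χ : Fin S → ZMod l, (∏ s, pr l (χ s)) * ∏ s, wt l (∑ t, χ t * g s t) ≤ kap l ^ S := by
  intro S
  induction S with
  | zero => intro g _ _; simp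
  | succ S ih =>
    intro g h0 hd
    have h1 := (Fin.consEquiv (fun _ : Fin (S + 1) => ZMod l)).sum_comp
      (fun χ : Fin (S + 1) → ZMod l => (∏ s, pr l (χ s)) * ∏ s, wt l (∑ t, χ t * g s t))
    rw [← h1, Fintype.sum_prod_type, Finset.sum_comm]
    have h2 : ∀ (χ : Fin S → ZMod l) (a : ZMod l),
        (∏ s, pr l ((Fin.consEquiv (fun _ : Fin (S + 1) => ZMod l)) (a, χ) s)) *
        ∏ s, wt l (∑ t, (Fin.consEquiv (fun _ : Fin (S + 1) => ZMod l)) (a, χ) t * g s t) =
        ((∏ s, pr l (χ s)) * ∏ s : Fin S, wt l (∑ t : Fin S, χ t * g s.succ t.succ)) *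
          (pr l a * wt l (a * g 0 0 + ∑ t : Fin S, χ t * g 0 t.succ)) := by
      intro χ a
      simp only [Fin.consEquiv_apply]
      rw [Fin.prod_univ_succ, Fin.prod_univ_succ]
      simp only [Fin.cons_zero, Fin.cons_succ]
      have h3 : ∀ s : Fin S, ∑ t, (Fin.cons a χ : Fin (S + 1) → ZMod l) t * g s.succ t =
          ∑ t : Fin S, χ t * g s.succ t.succ := by
        intro s
        rw [Fin.sum_univ_succ]
        simp only [Fin.cons_zero, Fin.cons_succ]
        rw [h0 s.succ 0 (Fin.succ_pos s), mul_zero, zero_add]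
      have h3' : ∏ s : Fin S, wt l (∑ t, (Fin.cons a χ : Fin (S + 1) → ZMod l) t *
          g s.succ t) = ∏ s : Fin S, wt l (∑ t : Fin S, χ t * g s.succ t.succ) :=
        Finset.prod_congr rfl fun s _ => by rw [h3 s]
      rw [h3', Fin.sum_univ_succ]
      simp only [Fin.cons_zero, Fin.cons_succ]
      ring
    have h4 : ∑ χ : Fin S → ZMod l, ∑ a : ZMod l,
        (∏ s, pr l ((Fin.consEquiv (fun _ : Fin (S + 1) => ZMod l)) (a, χ) s)) *
        ∏ s, wt l (∑ t, (Fin.consEquiv (fun _ : Fin (S + 1) => ZMod l)) (a, χ) t * g s t) ≤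
        ∑ χ : Fin S → ZMod l,
        ((∏ s, pr l (χ s)) * ∏ s : Fin S, wt l (∑ t : Fin S, χ t * g s.succ t.succ)) *
          kap l := by
      refine Finset.sum_le_sum fun χ _ => ?_
      rw [Finset.sum_congr rfl fun a _ => h2 χ a, ← Finset.mul_sum]
      refine mul_le_mul_of_nonneg_left (sum_one l _ _ (hd 0)) ?_
      exact mul_nonneg (Finset.prod_nonneg fun s _ => pr_nonneg l _)
        (Finset.prod_nonneg fun s _ => wt_nonneg l _)
    refine h4.trans ?_
    rw [← Finset.sum_mul, pow_succ]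
    refine mul_le_mul_of_nonneg_right ?_ (kap_nonneg l)
    exact ih (fun s t => g s.succ t.succ) (fun s t h => h0 _ _ (Fin.succ_lt_succ_iff.2 h))
      (fun s => hd _)

variable {ι : Type*} [Fintype ι] [DecidableEq ι] {l : ℕ}

/-- The bound for the sum of a character over a cube in terms of some of its coefficients. -/
theorem norm_sum_cube_le_prod [NeZero l] (a : ι → ZMod l) (T : Finset ι) (z : ι → Bool) {S : ℕ}
    (j : Fin S → ι) (hj : Function.Injective j) (hT : ∀ s, j s ∉ T) :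
    ‖∑ x ∈ cube T z, (ZMod.stdAddChar (ev a x) : ℂ)‖ ≤ 2 ^ Tᶜ.card * ∏ s, wt l (a (j s)) := by
  classical
  have h1 := norm_sum_cube_le a T z (univ.filter fun s => a (j s) ≠ 0).card (by
    rw [← Finset.card_map ⟨j, hj⟩]
    refine Finset.card_le_card ?_
    intro i hi
    rw [Finset.mem_map] at hi
    obtain ⟨s, hs, rfl⟩ := hi
    rw [Finset.mem_filter] at hs ⊢
    exact ⟨Finset.mem_univ _, hT s, hs.2⟩)
  refine h1.trans (le_of_eq ?_)
  congr 1
  unfold wt
  rw [Finset.prod_ite, Finset.prod_const_one, one_mul, Finset.prod_const]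

theorem char_sum {κ : Type*} [NeZero l] (s : Finset κ) (f : κ → ZMod l) :
    (ZMod.stdAddChar (∑ k ∈ s, f k) : ℂ) = ∏ k ∈ s, (ZMod.stdAddChar (f k) : ℂ) := by
  classical
  induction s using Finset.induction_on with
  | empty => simp
  | insert k s hk ih =>
    rw [Finset.sum_insert hk, Finset.prod_insert hk, AddChar.map_add_eq_mul, ih]

/-- The double sum of a product of weights of differences. -/
theorem sum_sum_wt [NeZero l] {S : ℕ} (r : Fin S → ι → ZMod l) (F : Fin S → Finset ι)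
    (hF : ∀ s t, s ≠ t → Disjoint (F s) (F t)) (lam : Fin S → ι → ZMod l)
    (h0 : ∀ s t, t < s → ∑ i ∈ F s, lam s i * r t i = 0)
    (hd : ∀ s, ∑ i ∈ F s, lam s i * r s i ≠ 0) :
    ∑ u : ι → Bool, ∑ v : ι → Bool, ∏ s, wt l (ev (r s) u - ev (r s) v) ≤
      (2 ^ Fintype.card ι) ^ 2 * kap l ^ S := by
  classical
  have hρ0 := rho_pos l
  have hρ1 := rho_le_one l
  -- expansion
  have h1 : ∀ u v : ι → Bool, ((∏ s, wt l (ev (r s) u - ev (r s) v) : ℝ) : ℂ) =
      ∑ χ : Fin S → ZMod l, ((∏ s, pr l (χ s) : ℝ) : ℂ) *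
        ((ZMod.stdAddChar (ev (∑ s, χ s • r s) u) : ℂ) *
          (starRingEnd ℂ) (ZMod.stdAddChar (ev (∑ s, χ s • r s) v) : ℂ)) := by
    intro u v
    rw [Complex.ofReal_prod, Finset.prod_congr rfl fun s _ => wt_eq_sum l _,
      Finset.prod_univ_sum]
    rw [Fintype.piFinset_univ]
    refine Finset.sum_congr rfl fun χ _ => ?_
    rw [Finset.prod_mul_distrib, Complex.ofReal_prod]
    congr 1
    rw [← AddChar.map_neg_eq_conj, ← AddChar.map_add_eq_mul, ← sub_eq_add_neg,
      ← char_sum]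
    congr 1
    have h2 : ∀ w : ι → Bool, ev (∑ s, χ s • r s) w = ∑ s, χ s * ev (r s) w := by
      intro w
      rw [ev_eq_sum]
      simp only [ev_eq_sum, Finset.mul_sum, Finset.sum_apply, Pi.smul_apply, smul_eq_mul,
        Finset.sum_mul]
      rw [Finset.sum_comm]
      refine Finset.sum_congr rfl fun s _ => Finset.sum_congr rfl fun i _ => ?_
      ring
    rw [h2, h2, ← Finset.sum_sub_distrib]
    refine Finset.sum_congr rfl fun s _ => ?_
    ring
  have h3 : ((∑ u : ι → Bool, ∑ v : ι → Bool, ∏ s, wt l (ev (r s) u - ev (r s) v) : ℝ) : ℂ) =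
      ((∑ χ : Fin S → ZMod l, (∏ s, pr l (χ s)) *
        ‖∑ u : ι → Bool, (ZMod.stdAddChar (ev (∑ s, χ s • r s) u) : ℂ)‖ ^ 2 : ℝ) : ℂ) := by
    rw [Complex.ofReal_sum]
    simp only [Complex.ofReal_sum]
    rw [Finset.sum_congr rfl fun u _ => Finset.sum_congr rfl fun v _ => by
      have := h1 u v
      exact this]
    have h4 : ∀ χ : Fin S → ZMod l, (((∏ s, pr l (χ s)) *
        ‖∑ u : ι → Bool, (ZMod.stdAddChar (ev (∑ s, χ s • r s) u) : ℂ)‖ ^ 2 : ℝ) : ℂ) =
        ∑ u : ι → Bool, ∑ v : ι → Bool, ((∏ s, pr l (χ s) : ℝ) : ℂ) *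
        ((ZMod.stdAddChar (ev (∑ s, χ s • r s) u) : ℂ) *
          (starRingEnd ℂ) (ZMod.stdAddChar (ev (∑ s, χ s • r s) v) : ℂ)) := by
      intro χ
      rw [Complex.ofReal_mul, ← Complex.normSq_eq_norm_sq, ← Complex.mul_conj, map_sum,
        Finset.sum_mul_sum, Finset.mul_sum]
      refine Finset.sum_congr rfl fun u _ => ?_
      rw [Finset.mul_sum]
    rw [Finset.sum_congr rfl fun χ _ => h4 χ]
    rw [Finset.sum_congr rfl fun u _ => Finset.sum_comm]
    rw [Finset.sum_comm]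
  have h5 := Complex.ofReal_injective h3
  rw [h5]
  -- bound of the terms
  have h6 : ∀ χ : Fin S → ZMod l,
      ‖∑ u : ι → Bool, (ZMod.stdAddChar (ev (∑ s, χ s • r s) u) : ℂ)‖ ^ 2 ≤
        (2 ^ Fintype.card ι) ^ 2 * ∏ s, wt l (∑ t, χ t * ∑ i ∈ F s, lam s i * r t i) := by
    intro χ
    set a : ι → ZMod l := ∑ s, χ s • r s with ha
    set Z : Finset (Fin S) := univ.filter fun s => ∑ t, χ t * ∑ i ∈ F s, lam s i * r t i ≠ 0
      with hZ
    have h7 : ∀ s ∈ Z, ∃ i ∈ F s, a i ≠ 0 := by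
      intro s hs
      rw [hZ, Finset.mem_filter] at hs
      by_contra hcon
      push Not at hcon
      apply hs.2
      have h8 : ∑ t, χ t * ∑ i ∈ F s, lam s i * r t i = ∑ i ∈ F s, lam s i * a i := by
        simp only [ha, Finset.sum_apply, Pi.smul_apply, smul_eq_mul, Finset.mul_sum]
        rw [Finset.sum_comm]
        refine Finset.sum_congr rfl fun i _ => Finset.sum_congr rfl fun t _ => ?_
        ring
      rw [h8]
      exact Finset.sum_eq_zero fun i hi => by rw [hcon i hi, mul_zero]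
    have h9 : Z.card ≤ (univ.filter fun i => i ∉ (∅ : Finset ι) ∧ a i ≠ 0).card := by
      rcases Z.eq_empty_or_nonempty with hZe | ⟨s₀, hs₀⟩
      · rw [hZe]; exact Nat.zero_le _
      have : Nonempty ι := ⟨(h7 s₀ hs₀).choose⟩
      choose! k hk1 hk2 using h7
      refine Finset.card_le_card_of_injOn k ?_ ?_
      · intro s hs
        rw [Finset.mem_coe, Finset.mem_filter]
        exact ⟨Finset.mem_univ _, Finset.notMem_empty _, hk2 s hs⟩
      · intro s hs t ht hst
        by_contra hne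
        exact Finset.disjoint_left.1 (hF s t hne) (hk1 s hs) (hst ▸ hk1 t ht)
    have h10 := norm_sum_cube_le a ∅ (fun _ => false) Z.card h9
    have h11 : cube (∅ : Finset ι) (fun _ => false) = (univ : Finset (ι → Bool)) := by
      ext x
      simp [mem_cube]
    rw [h11, Finset.compl_empty, Finset.card_univ] at h10
    have h12 : ∏ s, wt l (∑ t, χ t * ∑ i ∈ F s, lam s i * r t i) = rho l ^ Z.card := by
      unfold wt
      rw [Finset.prod_ite, Finset.prod_const_one, one_mul, Finset.prod_const]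
    rw [h12]
    have h13 : rho l ^ Z.card ≤ 1 := pow_le_one₀ hρ0.le hρ1
    have h14 : (0 : ℝ) ≤ rho l ^ Z.card := pow_nonneg hρ0.le _
    calc ‖∑ u : ι → Bool, (ZMod.stdAddChar (ev a u) : ℂ)‖ ^ 2 ≤
        (2 ^ Fintype.card ι * rho l ^ Z.card) ^ 2 :=
          pow_le_pow_left₀ (norm_nonneg _) h10 2
      _ = (2 ^ Fintype.card ι) ^ 2 * (rho l ^ Z.card * rho l ^ Z.card) := by ring
      _ ≤ (2 ^ Fintype.card ι) ^ 2 * (rho l ^ Z.card * 1) := by
          refine mul_le_mul_of_nonneg_left ?_ (by positivity)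
          exact mul_le_mul_of_nonneg_left h13 h14
      _ = _ := by rw [mul_one]
  have h15 := sum_tri l S (fun s t => ∑ i ∈ F s, lam s i * r t i) h0 hd
  calc ∑ χ : Fin S → ZMod l, (∏ s, pr l (χ s)) *
        ‖∑ u : ι → Bool, (ZMod.stdAddChar (ev (∑ s, χ s • r s) u) : ℂ)‖ ^ 2 ≤
      ∑ χ : Fin S → ZMod l, (∏ s, pr l (χ s)) *
        ((2 ^ Fintype.card ι) ^ 2 * ∏ s, wt l (∑ t, χ t * ∑ i ∈ F s, lam s i * r t i)) := by
        refine Finset.sum_le_sum fun χ _ => mul_le_mul_of_nonneg_left (h6 χ) ?_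
        exact Finset.prod_nonneg fun s _ => pr_nonneg l _
    _ = (2 ^ Fintype.card ι) ^ 2 * ∑ χ : Fin S → ZMod l, (∏ s, pr l (χ s)) *
        ∏ s, wt l (∑ t, χ t * ∑ i ∈ F s, lam s i * r t i) := by
        rw [Finset.mul_sum]
        refine Finset.sum_congr rfl fun χ _ => ?_
        ring
    _ ≤ _ := mul_le_mul_of_nonneg_left h15 (by positivity)

/-- The triangular bound. -/
theorem tri_bound [NeZero l] {A : ι → ι → ZMod l} (hA : Sym A) (L : ι → ZMod l) (T : Finset ι)
    (z : ι → Bool) {S : ℕ} (j : Fin S → ι) (hj : Function.Injective j) (hjT : ∀ s, j s ∉ T)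
    (F : Fin S → Finset ι) (hF : ∀ s t, s ≠ t → Disjoint (F s) (F t))
    (hFT : ∀ s, Disjoint T (F s)) (hjF : ∀ s t, j t ∉ F s) (lam : Fin S → ι → ZMod l)
    (h0 : ∀ s t, t < s → ∑ i ∈ F s, lam s i * (2 * A i (j t)) = 0)
    (hd : ∀ s, ∑ i ∈ F s, lam s i * (2 * A i (j s)) ≠ 0) :
    ‖∑ x ∈ cube T z, (ZMod.stdAddChar (qv A x + ev L x) : ℂ)‖ ^ 2 ≤
      (2 ^ Tᶜ.card) ^ 2 * kap l ^ S := by
  classical
  set B : Finset ι := univ.biUnion F with hB
  have hTB : Disjoint T B := by
    rw [hB, Finset.disjoint_biUnion_right]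
    exact fun s _ => hFT s
  have hjB : ∀ t, j t ∉ B := by
    intro t h
    rw [hB, Finset.mem_biUnion] at h
    obtain ⟨s, -, hs⟩ := h
    exact hjF s t hs
  have h1 := vdc hA L T B hTB z
  set r : Fin S → ι → ZMod l := fun s i => if i ∈ B then 2 * A (j s) i else 0 with hr
  have h2 : ∀ (u v : ι → Bool) (s : Fin S), dform A B u v (j s) = ev (r s) u - ev (r s) v := by
    intro u v s
    unfold dform
    rw [if_neg (hjB s), ev_eq_sum, ev_eq_sum, ← Finset.sum_sub_distrib,
      ← Finset.sum_subset (Finset.subset_univ B)]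
    · refine Finset.sum_congr rfl fun i hi => ?_
      simp only [hr, if_pos hi]
      ring
    · intro i _ hi
      simp [hr, hi]
  have h3 : ∀ (s t : Fin S), ∑ i ∈ F s, lam s i * r t i =
      ∑ i ∈ F s, lam s i * (2 * A i (j t)) := by
    intro s t
    refine Finset.sum_congr rfl fun i hi => ?_
    have : i ∈ B := by
      rw [hB, Finset.mem_biUnion]
      exact ⟨s, Finset.mem_univ _, hi⟩
    simp only [hr, if_pos this]
    rw [hA (j t) i]
  have h4 := sum_sum_wt r F hF lam (fun s t hst => (h3 s t).trans (h0 s t hst))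
    (fun s => by rw [h3 s s]; exact hd s)
  have h5 : ∑ u : ι → Bool, ∑ v : ι → Bool,
        ‖∑ x ∈ cube T z, (ZMod.stdAddChar (ev (dform A B u v) x) : ℂ)‖ ≤
      2 ^ Tᶜ.card * ((2 ^ Fintype.card ι) ^ 2 * kap l ^ S) := by
    calc _ ≤ ∑ u : ι → Bool, ∑ v : ι → Bool,
          (2 ^ Tᶜ.card : ℝ) * ∏ s, wt l (ev (r s) u - ev (r s) v) := by
          refine Finset.sum_le_sum fun u _ => Finset.sum_le_sum fun v _ => ?_
          refine (norm_sum_cube_le_prod _ T z j hj hjT).trans (le_of_eq ?_)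
          rw [Finset.prod_congr rfl fun s _ => by rw [h2 u v s]]
      _ = (2 ^ Tᶜ.card : ℝ) * ∑ u : ι → Bool, ∑ v : ι → Bool,
          ∏ s, wt l (ev (r s) u - ev (r s) v) := by
          rw [Finset.mul_sum]
          refine Finset.sum_congr rfl fun u _ => ?_
          rw [Finset.mul_sum]
      _ ≤ _ := mul_le_mul_of_nonneg_left h4 (by positivity)
  have h7 : (‖∑ x ∈ cube T z, (ZMod.stdAddChar (qv A x + ev L x) : ℂ)‖ *
      2 ^ Fintype.card ι) ^ 2 ≤ ((2 ^ Tᶜ.card) ^ 2 * kap l ^ S) *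
        (2 ^ Fintype.card ι) ^ 2 := by
    refine h1.trans ((mul_le_mul_of_nonneg_left h5 (by positivity)).trans (le_of_eq ?_))
    ring
  rw [mul_pow] at h7
  exact le_of_mul_le_mul_right h7 (by positivity)

end Pool.Agent.Helper27.QS
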