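import Pool.Agent.Helper27.QS.Defs

/-!
# Exponential sums of quadratic forms: one differencing step
-/

set_option autoImplicit false
set_option linter.unusedSectionVars false

namespace Pool.Agent.Helper27.QS

open Finset Pool.Agent.Helper21.LinSys

variable {ι : Type*} [Fintype ι] [DecidableEq ι] {l : ℕ}

/-- A bit as a residue. -/
def bit (l : ℕ) (b : Bool) : ZMod l := if b = true then 1 else 0

/-- The bilinear form with matrix `A`. -/
def bl (A : ι → ι → ZMod l) (p q : ι → ZMod l) : ZMod l := ∑ i, ∑ j, A i j * p i * q j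

theorem bl_add_left (A : ι → ι → ZMod l) (p p' q : ι → ZMod l) :
    bl A (p + p') q = bl A p q + bl A p' q := by
  unfold bl
  simp only [← Finset.sum_add_distrib]
  refine Finset.sum_congr rfl fun i _ => Finset.sum_congr rfl fun j _ => ?_
  simp only [Pi.add_apply]
  ring

theorem bl_add_right (A : ι → ι → ZMod l) (p q q' : ι → ZMod l) :
    bl A p (q + q') = bl A p q + bl A p q' := by
  unfold bl
  simp only [← Finset.sum_add_distrib]
  refine Finset.sum_congr rfl fun i _ => Finset.sum_congr rfl fun j _ => ?_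
  simp only [Pi.add_apply]
  ring

theorem bl_comm {A : ι → ι → ZMod l} (hA : Sym A) (p q : ι → ZMod l) : bl A p q = bl A q p := by
  unfold bl
  rw [Finset.sum_comm]
  refine Finset.sum_congr rfl fun i _ => Finset.sum_congr rfl fun j _ => ?_
  rw [hA j i]
  ring

theorem qv_eq_bl (A : ι → ι → ZMod l) (x : ι → Bool) :
    qv A x = bl A (fun i => bit l (x i)) (fun i => bit l (x i)) := by
  unfold qv bl bit
  refine Finset.sum_congr rfl fun i _ => Finset.sum_congr rfl fun j _ => ?_
  by_cases h1 : x i = true <;> by_cases h2 : x j = true <;> simp [h1, h2]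

theorem ev_eq_sum (L : ι → ZMod l) (x : ι → Bool) : ev L x = ∑ i, L i * bit l (x i) := by
  unfold ev bit
  refine Finset.sum_congr rfl fun i _ => ?_
  by_cases h : x i = true <;> simp [h]

/-- The linear form in the variables outside `B` obtained by differencing in the variables of
`B`. -/
def dform (A : ι → ι → ZMod l) (B : Finset ι) (u v : ι → Bool) : ι → ZMod l := fun i =>
  if i ∈ B then 0 else ∑ j ∈ B, 2 * A i j * (bit l (u j) - bit l (v j))

theorem phase_diff {A : ι → ι → ZMod l} (hA : Sym A) (L : ι → ZMod l) (B : Finset ι)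
    (u v : ι → Bool) : ∃ c : ZMod l, ∀ x : ι → Bool,
      (qv A (B.piecewise u x) + ev L (B.piecewise u x)) -
        (qv A (B.piecewise v x) + ev L (B.piecewise v x)) = ev (dform A B u v) x + c := by
  classical
  let P : (ι → Bool) → ι → ZMod l := fun u i => if i ∈ B then bit l (u i) else 0
  let X : (ι → Bool) → ι → ZMod l := fun x i => if i ∈ B then 0 else bit l (x i)
  have hpw : ∀ u x : ι → Bool, (fun i => bit l (B.piecewise u x i)) = P u + X x := by
    intro u x
    funext i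
    by_cases hi : i ∈ B
    · simp [P, X, hi]
    · simp [P, X, hi]
  have hq : ∀ u x : ι → Bool, qv A (B.piecewise u x) =
      bl A (P u) (P u) + 2 * bl A (X x) (P u) + bl A (X x) (X x) := by
    intro u x
    rw [qv_eq_bl, hpw, bl_add_left, bl_add_right, bl_add_right, bl_comm hA (P u) (X x)]
    ring
  have hl : ∀ u x : ι → Bool, ev L (B.piecewise u x) = ∑ i, L i * P u i + ∑ i, L i * X x i := by
    intro u x
    rw [ev_eq_sum, ← Finset.sum_add_distrib]
    refine Finset.sum_congr rfl fun i _ => ?_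
    have := congrFun (hpw u x) i
    simp only [Pi.add_apply] at this
    rw [this]
    ring
  have hd : ∀ x : ι → Bool, 2 * bl A (X x) (P u) - 2 * bl A (X x) (P v) =
      ev (dform A B u v) x := by
    intro x
    rw [ev_eq_sum]
    unfold bl dform
    rw [Finset.mul_sum, Finset.mul_sum, ← Finset.sum_sub_distrib]
    refine Finset.sum_congr rfl fun i _ => ?_
    by_cases hi : i ∈ B
    · simp [X, hi]
    · rw [if_neg hi, Finset.mul_sum, Finset.mul_sum, ← Finset.sum_sub_distrib, Finset.sum_mul]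
      rw [← Finset.sum_subset (Finset.subset_univ B)]
      · refine Finset.sum_congr rfl fun j hj => ?_
        simp only [P, X, hi, hj, if_true, if_false]
        ring
      · intro j _ hj
        simp [P, hj]
  refine ⟨bl A (P u) (P u) - bl A (P v) (P v) + (∑ i, L i * P u i - ∑ i, L i * P v i), ?_⟩
  intro x
  rw [hq, hq, hl, hl, ← hd x]
  ring

/-- Doubling the variables of `B`. -/
theorem sum_piecewise {M : Type*} [AddCommMonoid M] (T B : Finset ι) (hTB : Disjoint T B)
    (z : ι → Bool) (f : (ι → Bool) → M) :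
    ∑ x ∈ cube T z, ∑ u : ι → Bool, f (B.piecewise u x) =
      ∑ x ∈ cube T z, ∑ _u : ι → Bool, f x := by
  classical
  rw [← Finset.sum_product', ← Finset.sum_product']
  refine Finset.sum_bij' (fun p _ => (B.piecewise p.2 p.1, B.piecewise p.1 p.2))
    (fun p _ => (B.piecewise p.2 p.1, B.piecewise p.1 p.2)) ?_ ?_ ?_ ?_ ?_
  · rintro ⟨x, u⟩ hp
    rw [Finset.mem_product, mem_cube] at hp ⊢
    refine ⟨fun i hi => ?_, Finset.mem_univ _⟩
    have hiB : i ∉ B := Finset.disjoint_left.1 hTB hi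
    simp only [Finset.piecewise_eq_of_notMem _ _ _ hiB]
    exact hp.1 i hi
  · rintro ⟨x, u⟩ hp
    rw [Finset.mem_product, mem_cube] at hp ⊢
    refine ⟨fun i hi => ?_, Finset.mem_univ _⟩
    have hiB : i ∉ B := Finset.disjoint_left.1 hTB hi
    simp only [Finset.piecewise_eq_of_notMem _ _ _ hiB]
    exact hp.1 i hi
  · rintro ⟨x, u⟩ _
    ext i
    · by_cases hi : i ∈ B <;> simp [hi]
    · by_cases hi : i ∈ B <;> simp [hi]
  · rintro ⟨x, u⟩ _
    ext i
    · by_cases hi : i ∈ B <;> simp [hi]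
    · by_cases hi : i ∈ B <;> simp [hi]
  · rintro ⟨x, u⟩ _
    rfl

/-- One differencing step. -/
theorem vdc [NeZero l] {A : ι → ι → ZMod l} (hA : Sym A) (L : ι → ZMod l) (T B : Finset ι)
    (hTB : Disjoint T B) (z : ι → Bool) :
    (‖∑ x ∈ cube T z, (ZMod.stdAddChar (qv A x + ev L x) : ℂ)‖ * 2 ^ Fintype.card ι) ^ 2 ≤
      2 ^ Tᶜ.card * ∑ u : ι → Bool, ∑ v : ι → Bool,
        ‖∑ x ∈ cube T z, (ZMod.stdAddChar (ev (dform A B u v) x) : ℂ)‖ := by
  classical
  set f : (ι → Bool) → ℂ := fun x => (ZMod.stdAddChar (qv A x + ev L x) : ℂ) with hf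
  have h1 : ∑ x ∈ cube T z, ∑ u : ι → Bool, f (B.piecewise u x) =
      (∑ x ∈ cube T z, f x) * 2 ^ Fintype.card ι := by
    rw [sum_piecewise T B hTB z f, Finset.sum_mul]
    refine Finset.sum_congr rfl fun x _ => ?_
    rw [Finset.sum_const, Finset.card_univ, Fintype.card_fun, Fintype.card_bool, nsmul_eq_mul]
    push_cast
    ring
  have h2 : (‖∑ x ∈ cube T z, f x‖ * 2 ^ Fintype.card ι) =
      ‖∑ x ∈ cube T z, ∑ u : ι → Bool, f (B.piecewise u x)‖ := by
    rw [h1, norm_mul, norm_pow]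
    norm_num
  rw [h2]
  have h3 : ‖∑ x ∈ cube T z, ∑ u : ι → Bool, f (B.piecewise u x)‖ ^ 2 ≤
      (cube T z).card * ∑ x ∈ cube T z, ‖∑ u : ι → Bool, f (B.piecewise u x)‖ ^ 2 := by
    calc ‖∑ x ∈ cube T z, ∑ u : ι → Bool, f (B.piecewise u x)‖ ^ 2 ≤
        (∑ x ∈ cube T z, ‖∑ u : ι → Bool, f (B.piecewise u x)‖) ^ 2 :=
          pow_le_pow_left₀ (norm_nonneg _) (norm_sum_le _ _) 2
      _ ≤ _ := sq_sum_le_card_mul_sum_sq
  have h4 : ∀ x : ι → Bool, ((‖∑ u : ι → Bool, f (B.piecewise u x)‖ ^ 2 : ℝ) : ℂ) =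
      ∑ u : ι → Bool, ∑ v : ι → Bool, f (B.piecewise u x) *
        (starRingEnd ℂ) (f (B.piecewise v x)) := by
    intro x
    rw [← Complex.normSq_eq_norm_sq, ← Complex.mul_conj, map_sum, Finset.sum_mul_sum]
  have h5 : ((∑ x ∈ cube T z, ‖∑ u : ι → Bool, f (B.piecewise u x)‖ ^ 2 : ℝ) : ℂ) =
      ∑ u : ι → Bool, ∑ v : ι → Bool, ∑ x ∈ cube T z, f (B.piecewise u x) *
        (starRingEnd ℂ) (f (B.piecewise v x)) := by
    rw [Complex.ofReal_sum, Finset.sum_congr rfl fun x _ => h4 x, Finset.sum_comm]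
    exact Finset.sum_congr rfl fun u _ => Finset.sum_comm
  have h6 : ∑ x ∈ cube T z, ‖∑ u : ι → Bool, f (B.piecewise u x)‖ ^ 2 ≤
      ∑ u : ι → Bool, ∑ v : ι → Bool,
        ‖∑ x ∈ cube T z, (ZMod.stdAddChar (ev (dform A B u v) x) : ℂ)‖ := by
    have h7 : ∑ x ∈ cube T z, ‖∑ u : ι → Bool, f (B.piecewise u x)‖ ^ 2 =
        ‖((∑ x ∈ cube T z, ‖∑ u : ι → Bool, f (B.piecewise u x)‖ ^ 2 : ℝ) : ℂ)‖ := by
      rw [Complex.norm_real, Real.norm_eq_abs, abs_of_nonneg]
      exact Finset.sum_nonneg fun x _ => by positivity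
    rw [h7, h5]
    refine (norm_sum_le _ _).trans (Finset.sum_le_sum fun u _ => ?_)
    refine (norm_sum_le _ _).trans (Finset.sum_le_sum fun v _ => ?_)
    obtain ⟨c, hc⟩ := phase_diff hA L B u v
    have h8 : ∀ x ∈ cube T z, f (B.piecewise u x) * (starRingEnd ℂ) (f (B.piecewise v x)) =
        (ZMod.stdAddChar (ev (dform A B u v) x) : ℂ) * ZMod.stdAddChar c := by
      intro x _
      rw [← AddChar.map_add_eq_mul, ← hc x, hf]
      dsimp only
      rw [← AddChar.map_neg_eq_conj, ← AddChar.map_add_eq_mul, ← sub_eq_add_neg]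
    rw [Finset.sum_congr rfl h8, ← Finset.sum_mul, norm_mul, norm_char, mul_one]
  rw [card_cube] at h3
  refine h3.trans ?_
  push_cast
  exact mul_le_mul_of_nonneg_left h6 (by positivity)

/-- The chain bound. -/
theorem chain_bound [NeZero l] {A : ι → ι → ZMod l} (hA : Sym A) (L : ι → ZMod l)
    (T B : Finset ι) (hTB : Disjoint T B) (z : ι → Bool) (θ : ℕ)
    (hθ : ∀ u v : ι → Bool, (∃ j ∈ B, u j ≠ v j) → θ ≤ off T (dform A B u v)) :
    ‖∑ x ∈ cube T z, (ZMod.stdAddChar (qv A x + ev L x) : ℂ)‖ ^ 2 ≤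
      (2 ^ Tᶜ.card) ^ 2 * ((1 / 2) ^ B.card + rho l ^ θ) := by
  classical
  have h1 := vdc hA L T B hTB z
  have hρ : 0 ≤ rho l ^ θ := pow_nonneg (rho_pos l).le _
  have h2 : ∀ u v : ι → Bool,
      ‖∑ x ∈ cube T z, (ZMod.stdAddChar (ev (dform A B u v) x) : ℂ)‖ ≤
        2 ^ Tᶜ.card * ((if ∀ j ∈ B, u j = v j then 1 else 0) + rho l ^ θ) := by
    intro u v
    by_cases h : ∀ j ∈ B, u j = v j
    · rw [if_pos h]
      have h3 := norm_sum_cube_le (dform A B u v) T z 0 (Nat.zero_le _)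
      refine h3.trans ?_
      rw [pow_zero]
      refine mul_le_mul_of_nonneg_left ?_ (by positivity)
      linarith
    · rw [if_neg h, zero_add]
      push Not at h
      exact norm_sum_cube_le (dform A B u v) T z θ (hθ u v h)
  have h3 : ∑ u : ι → Bool, ∑ v : ι → Bool,
      ‖∑ x ∈ cube T z, (ZMod.stdAddChar (ev (dform A B u v) x) : ℂ)‖ ≤
      2 ^ Tᶜ.card * ((2 ^ Fintype.card ι) ^ 2 * ((1 / 2) ^ B.card + rho l ^ θ)) := by
    refine (Finset.sum_le_sum fun u _ => Finset.sum_le_sum fun v _ => h2 u v).trans ?_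
    have h4 : ∀ u : ι → Bool, ∑ v : ι → Bool, (2 ^ Tᶜ.card : ℝ) *
        ((if ∀ j ∈ B, u j = v j then 1 else 0) + rho l ^ θ) =
        2 ^ Tᶜ.card * (2 ^ Fintype.card ι * ((1 / 2) ^ B.card + rho l ^ θ)) := by
      intro u
      rw [← Finset.mul_sum, Finset.sum_add_distrib, Finset.sum_const, Finset.card_univ,
        Fintype.card_fun, Fintype.card_bool, nsmul_eq_mul, ← Finset.sum_filter,
        Finset.sum_const, nsmul_eq_mul, mul_one]
      have h5 : (univ.filter fun v : ι → Bool => ∀ j ∈ B, u j = v j) = cube B u := by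
        ext v
        rw [mem_cube, Finset.mem_filter]
        simp only [Finset.mem_univ, true_and]
        exact ⟨fun h j hj => (h j hj).symm, fun h j hj => (h j hj).symm⟩
      rw [h5, card_cube]
      have h6 : (2 : ℝ) ^ Fintype.card ι * (1 / 2) ^ B.card = 2 ^ Bᶜ.card := by
        have h7 : Fintype.card ι = Bᶜ.card + B.card := by
          rw [Finset.card_compl]
          have := Finset.card_le_univ B
          omega
        rw [h7, pow_add, mul_assoc, ← mul_pow]
        norm_num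
      push_cast
      rw [← h6]
      ring
    rw [Finset.sum_congr rfl fun u _ => h4 u, Finset.sum_const, Finset.card_univ,
      Fintype.card_fun, Fintype.card_bool, nsmul_eq_mul]
    push_cast
    apply le_of_eq
    ring
  have h7 : (‖∑ x ∈ cube T z, (ZMod.stdAddChar (qv A x + ev L x) : ℂ)‖ *
      2 ^ Fintype.card ι) ^ 2 ≤ ((2 ^ Tᶜ.card) ^ 2 * ((1 / 2) ^ B.card + rho l ^ θ)) *
        (2 ^ Fintype.card ι) ^ 2 := by
    refine h1.trans ((mul_le_mul_of_nonneg_left h3 (by positivity)).trans (le_of_eq ?_))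
    ring
  rw [mul_pow] at h7
  exact le_of_mul_le_mul_right h7 (by positivity)

end Pool.Agent.Helper27.QS
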